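import Pool.Agent.ABD31.Strict

set_option autoImplicit false

open Filter Topology Set

namespace Pool.Agent.ABD31

/-- At most `X / s + 1` of the numbers `e + g m`, `m < X`, are multiples of `s`. -/
lemma card_ap2 {s e g X : ℕ} (heg : Nat.Coprime e g) :
    ((Finset.range X).filter (fun m => s ∣ e + g * m)).card ≤ X / s + 1 := by
  classical
  rw [← Finset.card_range (X / s + 1)]
  apply Finset.card_le_card_of_injOn (fun m => m / s)
  · intro m hm
    simp only [Finset.coe_filter, Finset.mem_range, Set.mem_ofPred_eq] at hm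
    simp only [Finset.coe_range, Set.mem_Iio]
    exact Nat.lt_succ_of_le (Nat.div_le_div_right hm.1.le)
  · intro m hm m' hm' hdiv
    simp only [Finset.coe_filter, Finset.mem_range, Set.mem_ofPred_eq] at hm hm'
    simp only at hdiv
    have hcop : Nat.Coprime s g := by
      rw [Nat.coprime_iff_gcd_eq_one, ← Nat.dvd_one]
      have h1 : Nat.gcd s g ∣ e + g * m := (Nat.gcd_dvd_left _ _).trans hm.2
      have h2 : Nat.gcd s g ∣ g * m := (Nat.gcd_dvd_right _ _).trans (dvd_mul_right _ _)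
      have h3 : Nat.gcd s g ∣ e := (Nat.dvd_add_left h2).mp h1
      have h4 : Nat.gcd s g ∣ Nat.gcd e g := Nat.dvd_gcd h3 (Nat.gcd_dvd_right _ _)
      rwa [Nat.coprime_iff_gcd_eq_one.mp heg] at h4
    have hmod : g * m ≡ g * m' [MOD s] := by
      have h3 : e + g * m ≡ e + g * m' [MOD s] :=
        ((Nat.modEq_zero_iff_dvd).mpr hm.2).trans ((Nat.modEq_zero_iff_dvd).mpr hm'.2).symm
      exact Nat.ModEq.add_left_cancel' e h3
    have hmod2 : m ≡ m' [MOD s] := Nat.ModEq.cancel_left_of_coprime (by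
      rw [Nat.coprime_iff_gcd_eq_one] at hcop
      exact hcop) hmod
    have e1 := Nat.div_add_mod m s
    have e2 := Nat.div_add_mod m' s
    unfold Nat.ModEq at hmod2
    rw [← e1, ← e2, hdiv, hmod2]

/-- A number coprime to `k!` has index at most `1` plus the sum over its divisors above `k`. -/
lemma idx_rough {k n : ℕ} (hn : 0 < n) (hk : Nat.Coprime n k.factorial) :
    idx n - 1 ≤ ∑ d ∈ n.divisors.filter (fun d => k < d), (1 : ℝ) / d := by
  have h := idx_sub_le (k := k) hn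
  have h1 : Nat.gcd k.factorial n = 1 := by
    rw [Nat.gcd_comm]; exact hk
  rw [h1] at h
  have h2 : idx 1 = 1 := by simp [idx]
  rwa [h2] at h

lemma sum_inv_le (Z : ℕ) : ∑ d ∈ Finset.Ioc 0 Z, (1 : ℝ) / d ≤ 1 + Real.log Z := by
  have h := harmonic_le_one_add_log Z
  refine le_trans (le_of_eq ?_) h
  rw [harmonic_eq_sum_Icc]
  push_cast
  refine Finset.sum_congr ?_ (fun i _ => by rw [one_div])
  ext i
  simp only [Finset.mem_Ioc, Finset.mem_Icc]
  omega

/-- Few numbers of a rough progression have index above `u`. -/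
lemma cnt_rough {u : ℝ} (hu : 1 < u) {k e g : ℕ} (hk : 0 < k) (heg : Nat.Coprime e g)
    (hkg : k.factorial ∣ g) (X : ℕ) :
    (cnt {m | u < idx (e + g * m)} X : ℝ) * (u - 1) ≤
      (X : ℝ) / k + (1 + Real.log ((e + g * X : ℕ) : ℝ)) := by
  classical
  set Z := e + g * X with hZ
  have h1 : (cnt {m | u < idx (e + g * m)} X : ℝ) * (u - 1) ≤
      ∑ m ∈ Finset.range X, ∑ d ∈ Finset.Ioc k Z, (if d ∣ e + g * m then (1 : ℝ) / d else 0) := by
    apply cnt_mul_le_sum
    · intro m hm hmem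
      simp only [Set.mem_ofPred_eq] at hmem
      refine ⟨Finset.mem_range.mpr hm, ?_⟩
      have hn0 : 0 < e + g * m := by
        rcases Nat.eq_zero_or_pos (e + g * m) with h | h
        · rw [h] at hmem
          simp [idx] at hmem
          linarith
        · exact h
      have hcop : Nat.Coprime (e + g * m) k.factorial := by
        have h2 : Nat.Coprime (e + g * m) g := by
          rw [Nat.coprime_add_mul_left_left]
          exact heg
        exact Nat.Coprime.coprime_dvd_right hkg h2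
      have h3 := idx_rough hn0 hcop
      have h4 : ∑ d ∈ (e + g * m).divisors.filter (fun d => k < d), (1 : ℝ) / d ≤
          ∑ d ∈ Finset.Ioc k Z, (if d ∣ e + g * m then (1 : ℝ) / d else 0) := by
        rw [← Finset.sum_filter]
        apply Finset.sum_le_sum_of_subset_of_nonneg
        · intro d hd
          rw [Finset.mem_filter] at hd
          rw [Finset.mem_filter, Finset.mem_Ioc]
          refine ⟨⟨hd.2, (Nat.divisor_le hd.1).trans ?_⟩, Nat.dvd_of_mem_divisors hd.1⟩
          rw [hZ]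
          gcongr
        · intro i _ _
          positivity
      linarith
    · intro m _
      apply Finset.sum_nonneg
      intro d _
      split_ifs <;> positivity
  refine h1.trans ?_
  rw [Finset.sum_comm]
  have h2 : ∀ d ∈ Finset.Ioc k Z, ∑ m ∈ Finset.range X,
      (if d ∣ e + g * m then (1 : ℝ) / d else 0) ≤ (X : ℝ) * ((d : ℝ) ^ 2)⁻¹ + 1 / d := by
    intro d hd
    rw [Finset.mem_Ioc] at hd
    have hd0 : (0 : ℝ) < d := by
      have : 0 < d := lt_trans hk hd.1
      exact_mod_cast this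
    rw [← Finset.sum_filter, Finset.sum_const, nsmul_eq_mul]
    have h3 : (((Finset.range X).filter (fun m => d ∣ e + g * m)).card : ℝ) ≤ (X : ℝ) / d + 1 := by
      have h4 : (((Finset.range X).filter (fun m => d ∣ e + g * m)).card : ℝ) ≤
          ((X / d + 1 : ℕ) : ℝ) := by exact_mod_cast card_ap2 heg
      push_cast at h4
      have h5 : ((X / d : ℕ) : ℝ) ≤ (X : ℝ) / d := Nat.cast_div_le
      linarith
    calc (((Finset.range X).filter (fun m => d ∣ e + g * m)).card : ℝ) * (1 / (d : ℝ))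
        ≤ ((X : ℝ) / d + 1) * (1 / (d : ℝ)) := by gcongr
      _ = (X : ℝ) * ((d : ℝ) ^ 2)⁻¹ + 1 / d := by field_simp
  refine (Finset.sum_le_sum h2).trans ?_
  rw [Finset.sum_add_distrib, ← Finset.mul_sum]
  have h6 : ∑ d ∈ Finset.Ioc k Z, ((d : ℝ) ^ 2)⁻¹ ≤ ((k : ℝ))⁻¹ := by
    rcases le_or_gt k Z with hkN | hkN
    · have h4 := sum_Ioc_inv_sq_le_sub (α := ℝ) hk.ne' hkN
      have h5 : (0 : ℝ) ≤ ((Z : ℝ))⁻¹ := by positivity
      linarith
    · rw [Finset.Ioc_eq_empty (by omega)]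
      simp
  have h7 : ∑ d ∈ Finset.Ioc k Z, (1 : ℝ) / d ≤ 1 + Real.log (Z : ℝ) := by
    refine le_trans ?_ (sum_inv_le Z)
    apply Finset.sum_le_sum_of_subset_of_nonneg
    · intro d hd
      rw [Finset.mem_Ioc] at hd ⊢
      omega
    · intro i _ _
      positivity
  have h8 : (X : ℝ) * ∑ d ∈ Finset.Ioc k Z, ((d : ℝ) ^ 2)⁻¹ ≤ (X : ℝ) / k := by
    rw [div_eq_mul_inv]
    gcongr
  linarith

lemma log_small (e g : ℕ) {ε : ℝ} (hε : 0 < ε) :
    ∀ᶠ X : ℕ in atTop, 1 + Real.log ((e + g * X : ℕ) : ℝ) ≤ ε * X := by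
  have h1 : ∀ᶠ X : ℕ in atTop, ((e + g * X : ℕ) : ℝ) ≤ (e + g + 1 : ℕ) * X := by
    filter_upwards [eventually_ge_atTop 1] with X hX
    have : e + g * X ≤ (e + g + 1) * X := by nlinarith
    exact_mod_cast this
  have h2 : Tendsto (fun X : ℕ => Real.log (X : ℝ) / (X : ℝ)) atTop (𝓝 0) := by
    have := Real.isLittleO_log_id_atTop.tendsto_div_nhds_zero
    exact this.comp tendsto_natCast_atTop_atTop
  have h3 : ∀ᶠ X : ℕ in atTop, Real.log (X : ℝ) / X < ε / 2 :=
    h2.eventually (gt_mem_nhds (by positivity))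
  have h4 : ∀ᶠ X : ℕ in atTop, 1 + Real.log ((e + g + 1 : ℕ) : ℝ) ≤ ε / 2 * X := by
    have : Tendsto (fun N : ℕ => ε / 2 * (N : ℝ)) atTop atTop :=
      tendsto_natCast_atTop_atTop.const_mul_atTop (by positivity)
    exact this.eventually (eventually_ge_atTop _)
  filter_upwards [h1, h3, h4, eventually_gt_atTop 0] with X a1 a3 a4 a5
  have hX : (0 : ℝ) < X := by exact_mod_cast a5
  have hc : (0 : ℝ) < ((e + g + 1 : ℕ) : ℝ) := by positivity
  rw [div_lt_iff₀ hX] at a3
  rcases Nat.eq_zero_or_pos (e + g * X) with h0 | h0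
  · rw [h0]
    simp
    have : 0 ≤ Real.log ((e + g + 1 : ℕ) : ℝ) := Real.log_natCast_nonneg _
    have h5 : 0 ≤ ε / 2 * X := by positivity
    linarith
  · have h0' : (0 : ℝ) < ((e + g * X : ℕ) : ℝ) := by exact_mod_cast h0
    have h6 := Real.log_le_log h0' a1
    rw [Real.log_mul hc.ne' hX.ne'] at h6
    linarith

/-- At least half of a rough enough progression has index at most `u`. -/
lemma rough_half {u : ℝ} (hu : 1 < u) {k e g : ℕ} (hk : 4 / (u - 1) ≤ k) (hk0 : 0 < k)
    (heg : Nat.Coprime e g) (hkg : k.factorial ∣ g) :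
    ∀ᶠ X : ℕ in atTop, (X : ℝ) / 2 ≤ (cnt {m | idx (e + g * m) ≤ u} X : ℝ) := by
  have hu' : 0 < u - 1 := by linarith
  filter_upwards [log_small e g (show (0 : ℝ) < (u - 1) / 4 by positivity)] with X hX
  have h1 := cnt_rough hu hk0 heg hkg X
  have hk' : (0 : ℝ) < k := by exact_mod_cast hk0
  have h2 : (X : ℝ) / k ≤ (u - 1) / 4 * X := by
    rw [div_le_iff₀ hk']
    rw [div_le_iff₀ hu'] at hk
    have hX0 : (0 : ℝ) ≤ X := by positivity
    nlinarith
  have h3 : (cnt {m | u < idx (e + g * m)} X : ℝ) ≤ X / 2 := by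
    have h4 : (cnt {m | u < idx (e + g * m)} X : ℝ) * (u - 1) ≤ X / 2 * (u - 1) := by linarith
    exact le_of_mul_le_mul_right h4 hu'
  have h5 : (X : ℝ) ≤ (cnt {m | u < idx (e + g * m)} X : ℝ) +
      (cnt {m | u < idx (e + g * m)}ᶜ X : ℝ) := by exact_mod_cast le_cnt_add_compl _ X
  have h6 : {m | u < idx (e + g * m)}ᶜ = {m | idx (e + g * m) ≤ u} := by
    ext m
    simp
  rw [h6] at h5
  linarith

/-- Shift a coprime pair into a rough residue. -/
lemma exists_shift {g' k' : ℕ} (h : Nat.Coprime k' g') (k : ℕ) :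
    ∃ s : ℕ, Nat.Coprime (k' + g' * s) k.factorial := by
  classical
  set s := ∏ q ∈ (Finset.range (k + 1)).filter (fun q => q.Prime ∧ ¬ q ∣ k'), q with hs
  refine ⟨s, ?_⟩
  rw [Nat.coprime_iff_gcd_eq_one]
  by_contra hne
  obtain ⟨q, hq, hqd⟩ := Nat.exists_prime_and_dvd hne
  have hq1 : q ∣ k' + g' * s := hqd.trans (Nat.gcd_dvd_left _ _)
  have hq2 : q ≤ k := (hq.dvd_factorial).mp (hqd.trans (Nat.gcd_dvd_right _ _))
  by_cases hqk : q ∣ k'
  · have h1 : q ∣ g' * s := (Nat.dvd_add_right hqk).mp hq1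
    rcases (Nat.Prime.dvd_mul hq).mp h1 with h2 | h2
    · have h3 : q ∣ Nat.gcd k' g' := Nat.dvd_gcd hqk h2
      rw [Nat.coprime_iff_gcd_eq_one.mp h] at h3
      exact hq.one_lt.ne' (Nat.dvd_one.mp h3)
    · obtain ⟨t, ht, hqt⟩ := (Prime.dvd_finsetProd_iff hq.prime _).mp h2
      rw [Finset.mem_filter] at ht
      have := (Nat.prime_dvd_prime_iff_eq hq ht.2.1).mp hqt
      exact ht.2.2 (this ▸ hqk)
  · have h1 : q ∣ s := by
      apply Finset.dvd_prod_of_mem (fun q => q)
      rw [Finset.mem_filter, Finset.mem_range]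
      exact ⟨by omega, hq, hqk⟩
    exact hqk ((Nat.dvd_add_left (h1.mul_left g')).mp hq1)

/-- Two affine sections of the numbers of index above `u` differ on a set of positive lower
density. -/
theorem affine_sep {u : ℝ} (hu : 1 < u) {α β γ κ : ℕ} (hα : 0 < α)
    (hcop : Nat.Coprime κ γ) (hne : α * κ ≠ β * γ) :
    ∃ c : ℝ, 0 < c ∧ ∀ᶠ N : ℕ in atTop,
      c * N ≤ (cnt {n | u < idx (α * n + β) ∧ idx (γ * n + κ) ≤ u} N : ℝ) := by
  classical
  set Δ : ℕ := ((α * κ : ℤ) - (β * γ : ℤ)).natAbs with hΔ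
  have hΔ0 : 0 < Δ := by
    rw [hΔ, Int.natAbs_pos, sub_ne_zero]
    exact_mod_cast hne
  have hαΔ : 0 < α * Δ := Nat.mul_pos hα hΔ0
  obtain ⟨T, hT, hTsum⟩ := exists_primes (E := {q : ℕ | q ∣ α * Δ}) (by
    apply summable_of_hasFiniteSupport
    refine (Set.finite_le_nat (α * Δ)).subset ?_
    intro n hn
    by_contra hle
    apply hn
    rw [Set.indicator_of_notMem]
    intro hd
    exact hle (Nat.le_of_dvd hαΔ hd)) u
  have hTp : ∀ t ∈ T, t.Prime := fun t ht => (hT t ht).1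
  set D := ∏ t ∈ T, t with hD
  have hD0 : 0 < D := Finset.prod_pos (fun t ht => (hTp t ht).pos)
  have hDcop : Nat.Coprime D (α * Δ) := by
    apply Nat.Coprime.prod_left
    intro t ht
    exact (Nat.Prime.coprime_iff_not_dvd (hTp t ht)).mpr (hT t ht).2
  have hDα : Nat.Coprime D α := Nat.Coprime.coprime_dvd_right (dvd_mul_right _ _) hDcop
  have hDΔ : Nat.Coprime D Δ := Nat.Coprime.coprime_dvd_right (dvd_mul_left _ _) hDcop
  -- solve `α r0 + β ≡ 0` modulo `D`
  obtain ⟨r0, hr0⟩ : ∃ r0 : ℕ, D ∣ α * r0 + β := by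
    obtain ⟨r0, _, hr0⟩ := Nat.exists_mul_mod_eq_of_coprime ((D - 1) * β) hDα.symm hD0.ne'
    refine ⟨r0, ?_⟩
    have h1 : α * r0 ≡ (D - 1) * β [MOD D] := hr0
    have h2 : α * r0 + β ≡ (D - 1) * β + β [MOD D] := h1.add_right β
    have h3 : (D - 1) * β + β = D * β := by
      obtain ⟨D', hD'⟩ : ∃ D', D = D' + 1 := ⟨D - 1, by omega⟩
      rw [hD', Nat.add_sub_cancel]
      ring
    rw [h3] at h2
    exact (Nat.modEq_zero_iff_dvd).mp (h2.trans ((Nat.modEq_zero_iff_dvd).mpr (dvd_mul_right _ _)))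
  set κ' := γ * r0 + κ with hκ'
  have hcop1 : Nat.Coprime κ' γ := by
    rw [hκ', Nat.add_comm, Nat.coprime_add_mul_left_left]
    exact hcop
  have hcop2 : Nat.Coprime κ' D := by
    rw [Nat.coprime_iff_gcd_eq_one]
    by_contra hne1
    obtain ⟨q, hq, hqd⟩ := Nat.exists_prime_and_dvd hne1
    have hq1 : q ∣ κ' := hqd.trans (Nat.gcd_dvd_left _ _)
    have hq2 : q ∣ D := hqd.trans (Nat.gcd_dvd_right _ _)
    have hq3 : q ∣ α * r0 + β := hq2.trans hr0
    have hq4 : (q : ℤ) ∣ (α * κ : ℤ) - (β * γ : ℤ) := by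
      have e1 : (α * κ : ℤ) - (β * γ : ℤ) =
          (α : ℤ) * ((κ' : ℕ) : ℤ) - (γ : ℤ) * ((α * r0 + β : ℕ) : ℤ) := by
        rw [hκ']
        push_cast
        ring
      rw [e1]
      exact dvd_sub ((Int.natCast_dvd_natCast.mpr hq1).mul_left _)
        ((Int.natCast_dvd_natCast.mpr hq3).mul_left _)
    have hq5 : q ∣ Δ := Int.natCast_dvd.mp hq4
    have hq6 : q ∣ Nat.gcd D Δ := Nat.dvd_gcd hq2 hq5
    rw [Nat.coprime_iff_gcd_eq_one.mp hDΔ] at hq6
    exact hq.one_lt.ne' (Nat.dvd_one.mp hq6)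
  have hcop3 : Nat.Coprime κ' (γ * D) := Nat.Coprime.mul_right hcop1 hcop2
  obtain ⟨k1, hk1⟩ := exists_nat_ge (4 / (u - 1))
  set k := k1 + 1 with hkdef
  have hk0 : 0 < k := Nat.succ_pos _
  have hk : 4 / (u - 1) ≤ (k : ℝ) := by
    rw [hkdef]
    push_cast
    linarith
  obtain ⟨s, hs⟩ := exists_shift hcop3 k
  set g := γ * D * k.factorial with hg
  set e := (κ' + γ * D * s) + g * 1 with he
  have heg : Nat.Coprime e g := by
    rw [he, Nat.coprime_add_mul_left_left, hg]
    refine Nat.Coprime.mul_right ?_ hs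
    rw [Nat.coprime_add_mul_left_left]
    exact hcop3
  have hhalf := rough_half hu hk hk0 heg (dvd_mul_left _ _)
  set R := r0 + D * s with hR
  set P := D * k.factorial with hP
  have hP0 : 0 < P := Nat.mul_pos hD0 (Nat.factorial_pos k)
  have hPr : (0 : ℝ) < (P : ℝ) := by exact_mod_cast hP0
  have hmem : ∀ m : ℕ, idx (e + g * m) ≤ u →
      (R + P * (m + 1)) ∈ {n | u < idx (α * n + β) ∧ idx (γ * n + κ) ≤ u} := by
    intro m hm
    constructor
    · have hdvd : D ∣ α * (R + P * (m + 1)) + β := by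
        have : α * (R + P * (m + 1)) + β = (α * r0 + β) + D * (α * (s + k.factorial * (m + 1))) := by
          rw [hR, hP]; ring
        rw [this]
        exact dvd_add hr0 (dvd_mul_right _ _)
      have hpos : 0 < α * (R + P * (m + 1)) + β := by positivity
      refine lt_of_lt_of_le hTsum ?_
      unfold idx
      apply Finset.sum_le_sum_of_subset_of_nonneg
      · intro t ht
        rw [Nat.mem_divisors]
        exact ⟨(Finset.dvd_prod_of_mem (fun t => t) ht).trans hdvd, hpos.ne'⟩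
      · intro i _ _
        positivity
    · have : γ * (R + P * (m + 1)) + κ = e + g * m := by
        rw [hR, hP, he, hg, hκ']; ring
      show idx (γ * (R + P * (m + 1)) + κ) ≤ u
      rw [this]
      exact hm
  have hinj : Function.Injective (fun m : ℕ => R + P * (m + 1)) := by
    intro m m' h
    simp only at h
    have h1 : P * (m + 1) = P * (m' + 1) := by omega
    have h2 := Nat.eq_of_mul_eq_mul_left hP0 h1
    omega
  have hX : Tendsto (fun N : ℕ => N / (2 * P)) atTop atTop :=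
    Nat.tendsto_div_const_atTop (by omega)
  refine ⟨1 / (8 * P), by positivity, ?_⟩
  filter_upwards [hX.eventually hhalf, eventually_ge_atTop (4 * P),
    eventually_gt_atTop (2 * R)] with N h1 h2 h3
  have h4 : cnt {m | idx (e + g * m) ≤ u} (N / (2 * P)) ≤
      cnt {n | u < idx (α * n + β) ∧ idx (γ * n + κ) ≤ u} N := by
    refine cnt_le_cnt_of_inj hinj ?_
    intro m hmX hmg
    refine ⟨?_, hmem m hmg⟩
    have h5 : m + 1 ≤ N / (2 * P) := hmX
    have h6 : (m + 1) * (2 * P) ≤ N :=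
      (Nat.mul_le_mul_right _ h5).trans (Nat.div_mul_le_self _ _)
    have h7 : (m + 1) * (2 * P) = 2 * (P * (m + 1)) := by ring
    omega
  have h4' : (cnt {m | idx (e + g * m) ≤ u} (N / (2 * P)) : ℝ) ≤
      (cnt {n | u < idx (α * n + β) ∧ idx (γ * n + κ) ≤ u} N : ℝ) := by exact_mod_cast h4
  have h5 : (N : ℝ) / (4 * P) ≤ ((N / (2 * P) : ℕ) : ℝ) := by
    rw [div_le_iff₀ (by positivity)]
    have h6 : N ≤ N / (2 * P) * (2 * P) + 2 * P := by
      have := Nat.mod_lt N (show 0 < 2 * P by omega)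
      have := Nat.div_add_mod' N (2 * P)
      omega
    have h8 : N ≤ N / (2 * P) * (4 * P) := by
      have : N / (2 * P) * (4 * P) = 2 * (N / (2 * P) * (2 * P)) := by ring
      omega
    exact_mod_cast h8
  have h10 : 1 / (8 * (P : ℝ)) * N = (N : ℝ) / (4 * P) / 2 := by
    field_simp
    ring
  rw [h10]
  linarith

end Pool.Agent.ABD31
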