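import Mathlib

set_option autoImplicit false

open MeasureTheory Filter Topology Set

namespace Pool.Agent.ABD31

/-- The law of independent fair coins: every coordinate is true or false with probability one half,
independently of the others. -/
noncomputable def coin : Measure (ℕ → Bool) :=
  Measure.infinitePi (fun _ : ℕ => (PMF.uniformOfFintype Bool).toMeasure)

instance coin_prob : IsProbabilityMeasure coin := by
  unfold coin; infer_instance

/-- Flip the coordinates in `S`. -/
def flip (S : Finset ℕ) (x : ℕ → Bool) : ℕ → Bool := fun i => xor (x i) (decide (i ∈ S))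

/-- Put the set `S` on the first `N` coordinates. -/
def put (N : ℕ) (S : Finset (Fin N)) (x : ℕ → Bool) : ℕ → Bool :=
  fun i => if h : i < N then decide ((⟨i, h⟩ : Fin N) ∈ S) else x i

lemma xor_map (c : Bool) :
    ((PMF.uniformOfFintype Bool).toMeasure).map (fun b => xor b c) =
      (PMF.uniformOfFintype Bool).toMeasure := by
  apply Measure.ext_of_singleton
  intro a
  rw [Measure.map_apply (measurable_of_countable _) (measurableSet_singleton _)]
  have h : (fun b => xor b c) ⁻¹' {a} = {xor a c} := by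
    ext b; cases a <;> cases b <;> cases c <;> simp
  rw [h, PMF.toMeasure_apply_singleton _ _ (measurableSet_singleton _),
    PMF.toMeasure_apply_singleton _ _ (measurableSet_singleton _)]
  simp

lemma flip_map (S : Finset ℕ) : coin.map (flip S) = coin := by
  unfold coin
  have h := Measure.infinitePi_map_pi (μ := fun _ : ℕ => (PMF.uniformOfFintype Bool).toMeasure)
    (f := fun i b => xor b (decide (i ∈ S))) (fun i => measurable_of_countable _)
  have h2 : (fun (x : ℕ → Bool) i => xor (x i) (decide (i ∈ S))) = flip S := rfl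
  rw [h2] at h
  rw [h]
  congr 1
  funext i
  exact xor_map _

lemma flip_measurable (S : Finset ℕ) : Measurable (flip S) := by
  unfold flip
  refine measurable_pi_iff.mpr (fun i => ?_)
  exact (measurable_of_countable (fun b : Bool => xor b (decide (i ∈ S)))).comp
    (measurable_pi_apply i)

/-- The set of coordinates below `N` where `flip S x` is true. -/
def conv (N : ℕ) (x : ℕ → Bool) (S : Finset (Fin N)) : Finset (Fin N) :=
  Finset.univ.filter (fun i : Fin N => xor (x i) (decide (i ∈ S)) = true)

lemma conv_inj (N : ℕ) (x : ℕ → Bool) : Function.Injective (conv N x) := by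
  intro S T h
  ext i
  have h1 : i ∈ conv N x S ↔ i ∈ conv N x T := by rw [h]
  unfold conv at h1
  simp only [Finset.mem_filter, Finset.mem_univ, true_and] at h1
  by_cases hS : i ∈ S <;> by_cases hT : i ∈ T <;> cases hx : x i <;> simp_all

lemma flip_eq_put (N : ℕ) (x : ℕ → Bool) (S : Finset (Fin N)) :
    flip (S.map Fin.valEmbedding) x = put N (conv N x S) x := by
  funext i
  unfold flip put conv
  by_cases h : i < N
  · have h1 : (i ∈ S.map Fin.valEmbedding) ↔ (⟨i, h⟩ : Fin N) ∈ S := by
      simp only [Finset.mem_map, Fin.valEmbedding_apply]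
      constructor
      · rintro ⟨j, hj, hji⟩
        have : j = ⟨i, h⟩ := Fin.ext hji
        rwa [← this]
      · intro hi
        exact ⟨_, hi, rfl⟩
    rw [dif_pos h]
    by_cases hS : (⟨i, h⟩ : Fin N) ∈ S
    · cases hx : x i <;> simp [h1, hS, hx]
    · cases hx : x i <;> simp [h1, hS, hx]
  · have h1 : ¬ (i ∈ S.map Fin.valEmbedding) := by
      simp only [Finset.mem_map, Fin.valEmbedding_apply]
      rintro ⟨j, _, hji⟩
      exact h (hji ▸ j.2)
    rw [dif_neg h]
    simp [h1]

lemma put_lt (N : ℕ) (x : ℕ → Bool) {S T : Finset (Fin N)} (h : S ⊂ T) :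
    put N S x < put N T x := by
  rw [Pi.lt_def]
  obtain ⟨hsub, hne⟩ := Finset.ssubset_iff_subset_ne.mp h
  constructor
  · intro i
    unfold put
    by_cases hi : i < N
    · rw [dif_pos hi, dif_pos hi]
      by_cases hS : (⟨i, hi⟩ : Fin N) ∈ S
      · have hT := hsub hS
        simp [hS, hT]
      · simp [hS]
    · rw [dif_neg hi, dif_neg hi]
  · obtain ⟨j, hjT, hjS⟩ := Finset.exists_of_ssubset h
    refine ⟨j, ?_⟩
    unfold put
    rw [dif_pos j.2, dif_pos j.2]
    simp [hjT, hjS]

/-- Sperner: among the `2^N` choices of the first `N` coordinates at most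
`N.choose (N/2)` give the same value. -/
lemma sperner_put {δ : (ℕ → Bool) → ℝ} (hs : StrictAnti δ) (v : ℝ) (N : ℕ) (x : ℕ → Bool) :
    (Finset.univ.filter (fun S : Finset (Fin N) => δ (put N S x) = v)).card ≤
      N.choose (N / 2) := by
  have h : IsAntichain (· ⊆ ·)
      (SetLike.coe (Finset.univ.filter (fun S : Finset (Fin N) => δ (put N S x) = v))) := by
    intro S hS T hT hne hsub
    have hS' : δ (put N S x) = v := by simpa using hS
    have hT' : δ (put N T x) = v := by simpa using hT
    have hlt := hs (put_lt N x (Finset.ssubset_iff_subset_ne.mpr ⟨hsub, hne⟩))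
    rw [hS', hT'] at hlt
    exact lt_irrefl _ hlt
  have h2 := h.sperner
  simpa using h2

lemma sperner_flip {δ : (ℕ → Bool) → ℝ} (hs : StrictAnti δ) (v : ℝ) (N : ℕ) (x : ℕ → Bool) :
    (Finset.univ.filter (fun S : Finset (Fin N) =>
      δ (flip (S.map Fin.valEmbedding) x) = v)).card ≤ N.choose (N / 2) := by
  refine le_trans ?_ (sperner_put hs v N x)
  rw [← Finset.card_image_of_injective _ (conv_inj N x)]
  apply Finset.card_le_card
  intro T hT
  rw [Finset.mem_image] at hT
  obtain ⟨S, hS, rfl⟩ := hT
  rw [Finset.mem_filter] at hS ⊢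
  refine ⟨Finset.mem_univ _, ?_⟩
  rw [← flip_eq_put]
  exact hS.2

lemma two_pow_mul {δ : (ℕ → Bool) → ℝ} (hc : Measurable δ) (hs : StrictAnti δ) (v : ℝ) (N : ℕ) :
    (2 : ENNReal) ^ N * coin {x | δ x = v} ≤ (N.choose (N / 2) : ℕ) := by
  set L : Set (ℕ → Bool) := {x | δ x = v} with hL
  have hLm : MeasurableSet L := hc (measurableSet_singleton v)
  have h1 : ∀ S : Finset (Fin N),
      ∫⁻ x, L.indicator 1 (flip (S.map Fin.valEmbedding) x) ∂coin = coin L := by
    intro S
    rw [← lintegral_map (μ := coin) (f := L.indicator 1) (measurable_one.indicator hLm)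
      (flip_measurable _), flip_map, lintegral_indicator_one hLm]
  have h2 : ∑ S : Finset (Fin N),
      ∫⁻ x, L.indicator 1 (flip (S.map Fin.valEmbedding) x) ∂coin = (2 : ENNReal) ^ N * coin L := by
    rw [Finset.sum_congr rfl (fun S _ => h1 S), Finset.sum_const, nsmul_eq_mul]
    congr 1
    simp
  rw [← h2, ← lintegral_finsetSum]
  · calc ∫⁻ x, ∑ S : Finset (Fin N), L.indicator 1 (flip (S.map Fin.valEmbedding) x) ∂coin
        ≤ ∫⁻ _, ((N.choose (N / 2) : ℕ) : ENNReal) ∂coin := by
          apply lintegral_mono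
          intro x
          have h3 := sperner_flip hs v N x
          have h4 : ∑ S : Finset (Fin N), (L.indicator 1 (flip (S.map Fin.valEmbedding) x) : ENNReal)
              = ((Finset.univ.filter (fun S : Finset (Fin N) =>
                  δ (flip (S.map Fin.valEmbedding) x) = v)).card : ENNReal) := by
            rw [Finset.card_filter]
            push_cast
            refine Finset.sum_congr rfl (fun S _ => ?_)
            simp only [hL, Set.indicator, Set.mem_ofPred_eq, Pi.one_apply]
          simp only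
          rw [h4]
          exact_mod_cast h3
      _ = (N.choose (N / 2) : ℕ) := by
          rw [lintegral_const, measure_univ, mul_one]
  · intro S _
    exact (measurable_one.indicator hLm).comp (flip_measurable _)

lemma central_bound (m : ℕ) :
    ((Nat.centralBinom m : ℝ)) ^ 2 * (2 * m + 1) ≤ 16 ^ m := by
  induction m with
  | zero => simp
  | succ m ih =>
    have h := Nat.succ_mul_centralBinom_succ m
    have h' : ((m : ℝ) + 1) * (Nat.centralBinom (m + 1) : ℝ) =
        2 * (2 * m + 1) * (Nat.centralBinom m : ℝ) := by exact_mod_cast h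
    have hm : (0 : ℝ) < (m : ℝ) + 1 := by positivity
    have h2 : ((m : ℝ) + 1) ^ 2 * ((Nat.centralBinom (m + 1) : ℝ) ^ 2 * (2 * ((m + 1 : ℕ) : ℝ) + 1))
        ≤ ((m : ℝ) + 1) ^ 2 * 16 ^ (m + 1) := by
      have e1 : ((m : ℝ) + 1) ^ 2 * ((Nat.centralBinom (m + 1) : ℝ) ^ 2 *
          (2 * ((m + 1 : ℕ) : ℝ) + 1)) =
          4 * (2 * m + 1) * (2 * m + 3) * ((Nat.centralBinom m : ℝ) ^ 2 * (2 * m + 1)) := by
        push_cast
        have : ((m : ℝ) + 1) ^ 2 * ((Nat.centralBinom (m + 1) : ℝ) ^ 2 *
          (2 * ((m : ℝ) + 1) + 1)) = (((m : ℝ) + 1) * (Nat.centralBinom (m + 1) : ℝ)) ^ 2 *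
            (2 * ((m : ℝ) + 1) + 1) := by ring
        rw [this, h']
        ring
      rw [e1]
      have h5 : 4 * (2 * (m : ℝ) + 1) * (2 * m + 3) *
          ((Nat.centralBinom m : ℝ) ^ 2 * (2 * m + 1)) ≤
          4 * (2 * (m : ℝ) + 1) * (2 * m + 3) * 16 ^ m := by
        apply mul_le_mul_of_nonneg_left ih
        positivity
      refine h5.trans ?_
      have h7 : (16 : ℝ) ^ (m + 1) = 16 * 16 ^ m := by ring
      rw [h7]
      have h6 : (0 : ℝ) < 16 ^ m := by positivity
      nlinarith
    exact le_of_mul_le_mul_left h2 (by positivity)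

lemma level_null {δ : (ℕ → Bool) → ℝ} (hc : Measurable δ) (hs : StrictAnti δ) (v : ℝ) :
    coin {x | δ x = v} = 0 := by
  have hfin : coin {x | δ x = v} ≠ ⊤ := measure_ne_top _ _
  set t : ℝ := (coin {x | δ x = v}).toReal with ht
  have ht0 : 0 ≤ t := ENNReal.toReal_nonneg
  have key : ∀ m : ℕ, t ^ 2 * (2 * m + 1) ≤ 1 := by
    intro m
    have h := two_pow_mul hc hs v (2 * m)
    have h1 : (2 : ℝ) ^ (2 * m) * t ≤ (Nat.centralBinom m : ℝ) := by
      have h2 : ((2 : ENNReal) ^ (2 * m) * coin {x | δ x = v}).toReal ≤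
          (((2 * m).choose (2 * m / 2) : ℕ) : ENNReal).toReal :=
        ENNReal.toReal_mono (ENNReal.natCast_ne_top _) h
      rw [ENNReal.toReal_mul, ENNReal.toReal_pow, ENNReal.toReal_natCast] at h2
      have h3 : 2 * m / 2 = m := by omega
      rw [h3] at h2
      rw [Nat.centralBinom_eq_two_mul_choose]
      simpa using h2
    have h4 : ((2 : ℝ) ^ (2 * m) * t) ^ 2 * (2 * m + 1) ≤
        (Nat.centralBinom m : ℝ) ^ 2 * (2 * m + 1) := by
      gcongr
    have h5 := h4.trans (central_bound m)
    have h6 : ((2 : ℝ) ^ (2 * m) * t) ^ 2 * (2 * m + 1) = 16 ^ m * (t ^ 2 * (2 * m + 1)) := by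
      have : ((2 : ℝ) ^ (2 * m)) ^ 2 = 16 ^ m := by
        rw [← pow_mul, show 2 * m * 2 = 4 * m by ring, pow_mul]
        norm_num
      rw [mul_pow, this]
      ring
    rw [h6] at h5
    have h7 : (0 : ℝ) < 16 ^ m := by positivity
    nlinarith
  have ht1 : t = 0 := by
    by_contra hne
    have hpos : 0 < t := lt_of_le_of_ne ht0 (Ne.symm hne)
    obtain ⟨m, hm⟩ := exists_nat_gt (1 / t ^ 2)
    have h1 := key m
    have h2 : 1 < t ^ 2 * m := by
      rw [div_lt_iff₀ (by positivity)] at hm
      linarith
    nlinarith [sq_nonneg t]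
  have := (ENNReal.toReal_eq_zero_iff _).mp ht1
  rcases this with h | h
  · exact h
  · exact absurd h hfin

lemma level_nowhere {δ : (ℕ → Bool) → ℝ} (hc : Continuous δ) (hs : StrictAnti δ) (v : ℝ) :
    IsNowhereDense {x | δ x = v} := by
  have hcl : IsClosed {x | δ x = v} := isClosed_eq hc continuous_const
  rw [hcl.isNowhereDense_iff]
  by_contra hne
  obtain ⟨x, hx⟩ := Set.nonempty_iff_ne_empty.mpr hne
  rw [mem_interior_iff_mem_nhds, nhds_pi, Filter.mem_pi] at hx
  obtain ⟨I, hI, t, ht, hsub⟩ := hx
  obtain ⟨j, hj⟩ : ∃ j, j ∉ I := by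
    by_contra hall
    push Not at hall
    exact Set.infinite_univ (hI.subset (fun j _ => hall j))
  have hmem : ∀ b : Bool, Function.update x j b ∈ I.pi t := by
    intro b i hi
    have : i ≠ j := fun h => hj (h ▸ hi)
    rw [Function.update_of_ne this]
    exact mem_of_mem_nhds (ht i)
  have h1 := hsub (hmem false)
  have h2 := hsub (hmem true)
  have h3 : Function.update x j false < Function.update x j true := by
    rw [Pi.lt_def]
    refine ⟨?_, j, ?_⟩
    · intro i
      by_cases hij : i = j
      · subst hij; simp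
      · rw [Function.update_of_ne hij, Function.update_of_ne hij]
    · simp
  have h4 := hs h3
  simp only [Set.mem_ofPred_eq] at h1 h2
  rw [h1, h2] at h4
  exact lt_irrefl _ h4

/-- A continuous strictly decreasing function on the Cantor cube avoids a countable set almost
surely, and on a residual set. -/
theorem coin_lemma {δ : (ℕ → Bool) → ℝ} (hc : Continuous δ) (hs : StrictAnti δ) (C : Set ℝ)
    (hC : C.Countable) :
    (∀ᵐ x ∂coin, δ x ∉ C) ∧ (∀ᶠ x in residual (ℕ → Bool), δ x ∉ C) := by
  constructor
  · have h1 : ∀ᵐ x ∂coin, ∀ v ∈ C, δ x ≠ v := by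
      rw [ae_ball_iff hC]
      intro v _
      rw [ae_iff]
      simpa using level_null hc.measurable hs v
    filter_upwards [h1] with x hx hmem
    exact hx _ hmem rfl
  · have h1 : ∀ᶠ x in residual (ℕ → Bool), ∀ v ∈ C, δ x ≠ v := by
      rw [eventually_countable_ball hC]
      intro v _
      have h2 := (level_nowhere hc hs v).isMeagre
      exact h2
    filter_upwards [h1] with x hx hmem
    exact hx _ hmem rfl

end Pool.Agent.ABD31
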