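import Mathlib

set_option autoImplicit false

open Filter Topology Set

namespace Pool.Agent.ABD31

open Classical in
/-- The number of elements of `S` below `N`. -/
noncomputable def cnt (S : Set ℕ) (N : ℕ) : ℕ := ((Finset.range N).filter (fun n => n ∈ S)).card

/-- `S` has natural density `d`. -/
def HasDensity (S : Set ℕ) (d : ℝ) : Prop :=
  Tendsto (fun N : ℕ => (cnt S N : ℝ) / (N : ℝ)) atTop (𝓝 d)

lemma cnt_mono {S T : Set ℕ} (h : S ⊆ T) (N : ℕ) : cnt S N ≤ cnt T N := by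
  classical
  unfold cnt
  apply Finset.card_le_card
  intro n hn
  rw [Finset.mem_filter] at hn ⊢
  exact ⟨hn.1, h hn.2⟩

lemma cnt_union_le (S T : Set ℕ) (N : ℕ) : cnt (S ∪ T) N ≤ cnt S N + cnt T N := by
  classical
  unfold cnt
  refine le_trans (le_of_eq ?_) (Finset.card_union_le _ _)
  congr 1
  ext n
  simp only [Finset.mem_filter, Finset.mem_union, Set.mem_union]
  tauto

lemma cnt_le (S : Set ℕ) (N : ℕ) : cnt S N ≤ N := by
  classical
  unfold cnt
  refine (Finset.card_filter_le _ _).trans ?_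
  simp

lemma cnt_le_card {S : Set ℕ} {N : ℕ} (F : Finset ℕ) (h : ∀ n < N, n ∈ S → n ∈ F) :
    cnt S N ≤ F.card := by
  classical
  unfold cnt
  apply Finset.card_le_card
  intro n hn
  rw [Finset.mem_filter, Finset.mem_range] at hn
  exact h n hn.1 hn.2

lemma card_le_cnt {S : Set ℕ} {N : ℕ} (F : Finset ℕ) (h : ∀ n ∈ F, n < N ∧ n ∈ S) :
    F.card ≤ cnt S N := by
  classical
  unfold cnt
  apply Finset.card_le_card
  intro n hn
  rw [Finset.mem_filter, Finset.mem_range]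
  exact h n hn

lemma cnt_mul_le_sum {S : Set ℕ} {N : ℕ} {η : ℝ} {g : ℕ → ℝ} (F : Finset ℕ)
    (h : ∀ n < N, n ∈ S → n ∈ F ∧ η ≤ g n) (h2 : ∀ n ∈ F, 0 ≤ g n) :
    (cnt S N : ℝ) * η ≤ ∑ n ∈ F, g n := by
  classical
  unfold cnt
  rw [← nsmul_eq_mul, ← Finset.sum_const]
  refine (Finset.sum_le_sum (g := g) ?_).trans
    (Finset.sum_le_sum_of_subset_of_nonneg ?_ ?_)
  · intro n hn
    rw [Finset.mem_filter, Finset.mem_range] at hn
    exact (h n hn.1 hn.2).2
  · intro n hn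
    rw [Finset.mem_filter, Finset.mem_range] at hn
    exact (h n hn.1 hn.2).1
  · intro n hn _
    exact h2 n hn

lemma cnt_add {S : Set ℕ} {M : ℕ} (hper : ∀ n, M + n ∈ S ↔ n ∈ S) (N : ℕ) :
    cnt S (M + N) = cnt S M + cnt S N := by
  classical
  have h := Nat.count_add (p := fun n => n ∈ S) M N
  have h1 : ∀ N, cnt S N = Nat.count (fun n => n ∈ S) N := by
    intro N
    rw [Nat.count_eq_card_filter_range]
    unfold cnt
    congr 1
  rw [h1, h1, h1, h]
  congr 1
  congr 1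
  funext n
  exact propext (hper n)

lemma cnt_mul {S : Set ℕ} {M : ℕ} (hper : ∀ n, M + n ∈ S ↔ n ∈ S) (q : ℕ) :
    cnt S (q * M) = q * cnt S M := by
  induction q with
  | zero => simp [cnt]
  | succ q ih =>
    rw [show (q + 1) * M = M + q * M by ring, cnt_add hper, ih]
    ring

lemma cnt_mul_add {S : Set ℕ} {M : ℕ} (hper : ∀ n, M + n ∈ S ↔ n ∈ S) (q r : ℕ) :
    cnt S (q * M + r) = q * cnt S M + cnt S r := by
  induction q with
  | zero => simp
  | succ q ih =>
    rw [show (q + 1) * M + r = M + (q * M + r) by ring, cnt_add hper, ih]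
    ring

lemma cnt_per_le {S : Set ℕ} {M : ℕ} (hM : 0 < M) (hper : ∀ n, M + n ∈ S ↔ n ∈ S) (N : ℕ) :
    (cnt S N : ℝ) ≤ (cnt S M : ℝ) / M * N + M := by
  have h1 : N = N / M * M + N % M := (Nat.div_add_mod' N M).symm
  have h2 : cnt S N = N / M * cnt S M + cnt S (N % M) := by
    conv_lhs => rw [h1]
    exact cnt_mul_add hper _ _
  have h3 : cnt S (N % M) ≤ M := (cnt_le _ _).trans (Nat.mod_lt _ hM).le
  have h4 : ((N / M : ℕ) : ℝ) ≤ (N : ℝ) / M := Nat.cast_div_le
  rw [h2]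
  push_cast
  have h5 : ((N / M : ℕ) : ℝ) * (cnt S M : ℝ) ≤ (N : ℝ) / M * (cnt S M : ℝ) := by gcongr
  have h6 : ((cnt S (N % M) : ℕ) : ℝ) ≤ M := by exact_mod_cast h3
  have h7 : (N : ℝ) / M * (cnt S M : ℝ) = (cnt S M : ℝ) / M * N := by ring
  linarith

lemma cnt_per_ge {S : Set ℕ} {M : ℕ} (hM : 0 < M) (hper : ∀ n, M + n ∈ S ↔ n ∈ S) (N : ℕ) :
    (cnt S M : ℝ) / M * N - M ≤ (cnt S N : ℝ) := by
  have h1 : N = N / M * M + N % M := (Nat.div_add_mod' N M).symm
  have h2 : cnt S N = N / M * cnt S M + cnt S (N % M) := by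
    conv_lhs => rw [h1]
    exact cnt_mul_add hper _ _
  have hM' : (0 : ℝ) < M := by exact_mod_cast hM
  have h4 : (N : ℝ) / M - 1 ≤ ((N / M : ℕ) : ℝ) := by
    have : (N : ℝ) ≤ ((N / M : ℕ) : ℝ) * M + M := by
      have h5 : N ≤ N / M * M + M := by
        have := Nat.mod_lt N hM
        omega
      exact_mod_cast h5
    rw [sub_le_iff_le_add, div_le_iff₀ hM']
    linarith
  have h8 : (cnt S M : ℝ) ≤ M := by exact_mod_cast cnt_le S M
  rw [h2]
  push_cast
  have h5 : ((N : ℝ) / M - 1) * (cnt S M : ℝ) ≤ ((N / M : ℕ) : ℝ) * (cnt S M : ℝ) := by gcongr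
  have h6 : (0 : ℝ) ≤ ((cnt S (N % M) : ℕ) : ℝ) := by positivity
  have h7 : (N : ℝ) / M * (cnt S M : ℝ) = (cnt S M : ℝ) / M * N := by ring
  nlinarith

lemma density_per {S : Set ℕ} {M : ℕ} (hM : 0 < M) (hper : ∀ n, M + n ∈ S ↔ n ∈ S) :
    HasDensity S ((cnt S M : ℝ) / M) := by
  unfold HasDensity
  rw [tendsto_iff_norm_sub_tendsto_zero]
  have hlim : Tendsto (fun N : ℕ => (M : ℝ) / N) atTop (𝓝 0) :=
    tendsto_const_div_atTop_nhds_zero_nat (M : ℝ)
  refine squeeze_zero' (Eventually.of_forall (fun _ => norm_nonneg _)) ?_ hlim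
  filter_upwards [eventually_gt_atTop 0] with N hN
  have hN' : (0 : ℝ) < N := by exact_mod_cast hN
  have h1 := cnt_per_le hM hper N
  have h2 := cnt_per_ge hM hper N
  rw [Real.norm_eq_abs, abs_le]
  constructor
  · rw [neg_le_sub_iff_le_add, ← sub_le_iff_le_add, ← sub_nonneg]
    have : (cnt S N : ℝ) / N - ((cnt S M : ℝ) / M - (M : ℝ) / N) =
        ((cnt S N : ℝ) - ((cnt S M : ℝ) / M * N - M)) / N := by
      field_simp
    rw [this]
    apply div_nonneg _ hN'.le
    linarith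
  · rw [sub_le_iff_le_add, ← sub_nonneg]
    have : (M : ℝ) / N + (cnt S M : ℝ) / M - (cnt S N : ℝ) / N =
        ((cnt S M : ℝ) / M * N + M - (cnt S N : ℝ)) / N := by
      field_simp
      ring
    rw [this]
    apply div_nonneg _ hN'.le
    linarith

/-- A set approximated by sets with a density has a density. -/
lemma density_of_approx (S : Set ℕ)
    (h : ∀ ε : ℝ, 0 < ε → ∃ P : Set ℕ, ∃ d : ℝ, HasDensity P d ∧
      ∀ᶠ N : ℕ in atTop, |(cnt S N : ℝ) - cnt P N| ≤ ε * N) :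
    ∃ d : ℝ, HasDensity S d := by
  have hc : CauchySeq (fun N : ℕ => (cnt S N : ℝ) / (N : ℝ)) := by
    rw [Metric.cauchySeq_iff']
    intro ε hε
    obtain ⟨P, d, hP, hN⟩ := h (ε / 8) (by positivity)
    have h1 : ∀ᶠ N : ℕ in atTop, |(cnt P N : ℝ) / N - d| < ε / 8 := by
      have := hP.eventually (Metric.ball_mem_nhds d (show 0 < ε / 8 by positivity))
      filter_upwards [this] with N hN
      simpa only [Real.dist_eq, Metric.mem_ball] using hN
    have h2 : ∀ᶠ N : ℕ in atTop, |(cnt S N : ℝ) / N - d| < ε / 2 := by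
      filter_upwards [h1, hN, eventually_gt_atTop 0] with N h3 h4 h5
      have hN' : (0 : ℝ) < N := by exact_mod_cast h5
      have h6 : |(cnt S N : ℝ) / N - (cnt P N : ℝ) / N| ≤ ε / 8 := by
        rw [← sub_div, abs_div, abs_of_pos hN', div_le_iff₀ hN']
        exact h4
      have h7 := abs_add_le ((cnt S N : ℝ) / N - (cnt P N : ℝ) / N) ((cnt P N : ℝ) / N - d)
      have h8 : (cnt S N : ℝ) / N - (cnt P N : ℝ) / N + ((cnt P N : ℝ) / N - d) =
        (cnt S N : ℝ) / N - d := by ring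
      rw [h8] at h7
      linarith
    rw [eventually_atTop] at h2
    obtain ⟨N0, hN0⟩ := h2
    refine ⟨N0, fun n hn => ?_⟩
    rw [Real.dist_eq]
    have h3 := hN0 n hn
    have h4 := hN0 N0 le_rfl
    rw [abs_lt] at h3 h4 ⊢
    constructor <;> linarith
  exact cauchySeq_tendsto_of_complete hc

lemma density_unique {S : Set ℕ} {d e : ℝ} (h1 : HasDensity S d) (h2 : HasDensity S e) : d = e :=
  tendsto_nhds_unique h1 h2

end Pool.Agent.ABD31
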