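import Pool.Agent.ABD31.Dens

set_option autoImplicit false

open Filter Topology Set

namespace Pool.Agent.ABD31

/-- The abundancy index `σ(n)/n`, as the sum of the reciprocals of the divisors. -/
noncomputable def idx (n : ℕ) : ℝ := ∑ d ∈ n.divisors, (1 : ℝ) / d

lemma sigma_eq (n : ℕ) : ((∑ d ∈ n.divisors, d : ℕ) : ℝ) = n * idx n := by
  unfold idx
  rw [← Nat.sum_div_divisors n (fun d => d), Finset.mul_sum, Nat.cast_sum]
  refine Finset.sum_congr rfl (fun d hd => ?_)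
  have hdn := Nat.dvd_of_mem_divisors hd
  have hd0 : (d : ℝ) ≠ 0 := by
    have := Nat.pos_of_mem_divisors hd
    positivity
  rw [Nat.cast_div hdn hd0]
  ring

lemma idx_mono {m n : ℕ} (h : m ∣ n) (hn : n ≠ 0) : idx m ≤ idx n := by
  unfold idx
  apply Finset.sum_le_sum_of_subset_of_nonneg
  · exact Nat.divisors_subset_of_dvd hn h
  · intro i _ _
    positivity

lemma one_le_idx {n : ℕ} (hn : n ≠ 0) : 1 ≤ idx n := by
  have h := idx_mono (one_dvd n) hn
  simpa [idx] using h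

lemma idx_mul_prime {t m : ℕ} (ht : t.Prime) (htm : ¬ t ∣ m) (hm : m ≠ 0) :
    idx (t * m) = (1 + 1 / (t : ℝ)) * idx m := by
  have hcop : Nat.Coprime t m := (Nat.Prime.coprime_iff_not_dvd ht).mpr htm
  have h := Nat.Coprime.sum_divisors_mul hcop
  have h1 : ((∑ d ∈ (t * m).divisors, d : ℕ) : ℝ) =
      ((∑ d ∈ t.divisors, d : ℕ) : ℝ) * ((∑ d ∈ m.divisors, d : ℕ) : ℝ) := by
    exact_mod_cast h
  rw [sigma_eq, sigma_eq m, ht.sum_divisors] at h1
  have ht0 : (t : ℝ) ≠ 0 := by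
    have := ht.pos
    positivity
  have hm0 : (m : ℝ) ≠ 0 := by exact_mod_cast hm
  push_cast at h1
  field_simp
  field_simp at h1
  linarith

/-- The part of the index that the divisors of `k!` miss. -/
lemma idx_sub_le {k n : ℕ} (hn : 0 < n) :
    idx n - idx (Nat.gcd k.factorial n) ≤
      ∑ d ∈ n.divisors.filter (fun d => k < d), (1 : ℝ) / d := by
  classical
  have hsub : (Nat.gcd k.factorial n).divisors ⊆ n.divisors :=
    Nat.divisors_subset_of_dvd hn.ne' (Nat.gcd_dvd_right _ _)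
  unfold idx
  rw [← Finset.sum_sdiff hsub, add_sub_cancel_right]
  apply Finset.sum_le_sum_of_subset_of_nonneg
  · intro d hd
    rw [Finset.mem_sdiff] at hd
    rw [Finset.mem_filter]
    refine ⟨hd.1, ?_⟩
    by_contra hle
    push Not at hle
    apply hd.2
    rw [Nat.mem_divisors]
    have hd0 := Nat.pos_of_mem_divisors hd.1
    refine ⟨Nat.dvd_gcd (Nat.dvd_factorial hd0 hle) (Nat.dvd_of_mem_divisors hd.1), ?_⟩
    exact (Nat.gcd_pos_of_pos_right _ hn).ne'
  · intro i _ _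
    positivity

lemma sum_tail_le {k : ℕ} (hk : 0 < k) (N : ℕ) :
    ∑ n ∈ Finset.Ioc 0 N, (idx n - idx (Nat.gcd k.factorial n)) ≤ (N : ℝ) / k := by
  classical
  have h1 : ∑ n ∈ Finset.Ioc 0 N, (idx n - idx (Nat.gcd k.factorial n)) ≤
      ∑ n ∈ Finset.Ioc 0 N, ∑ d ∈ Finset.Ioc k N, (if d ∣ n then (1 : ℝ) / d else 0) := by
    apply Finset.sum_le_sum
    intro n hn
    rw [Finset.mem_Ioc] at hn
    refine (idx_sub_le hn.1).trans ?_
    rw [← Finset.sum_filter]
    apply Finset.sum_le_sum_of_subset_of_nonneg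
    · intro d hd
      rw [Finset.mem_filter] at hd
      rw [Finset.mem_filter, Finset.mem_Ioc]
      refine ⟨⟨hd.2, ?_⟩, Nat.dvd_of_mem_divisors hd.1⟩
      exact (Nat.divisor_le hd.1).trans hn.2
    · intro i _ _
      positivity
  refine h1.trans ?_
  rw [Finset.sum_comm]
  have h2 : ∀ d ∈ Finset.Ioc k N, ∑ n ∈ Finset.Ioc 0 N, (if d ∣ n then (1 : ℝ) / d else 0) ≤
      (N : ℝ) * ((d : ℝ) ^ 2)⁻¹ := by
    intro d hd
    rw [Finset.mem_Ioc] at hd
    have hd0 : (0 : ℝ) < d := by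
      have : 0 < d := lt_trans hk hd.1
      exact_mod_cast this
    rw [← Finset.sum_filter, Finset.sum_const, Nat.Ioc_filter_dvd_card_eq_div, nsmul_eq_mul]
    have h3 : ((N / d : ℕ) : ℝ) ≤ (N : ℝ) / d := Nat.cast_div_le
    calc ((N / d : ℕ) : ℝ) * (1 / (d : ℝ)) ≤ (N : ℝ) / d * (1 / (d : ℝ)) := by gcongr
      _ = (N : ℝ) * ((d : ℝ) ^ 2)⁻¹ := by field_simp
  refine (Finset.sum_le_sum h2).trans ?_
  rw [← Finset.mul_sum]
  rcases le_or_gt k N with hkN | hkN
  · have h4 := sum_Ioc_inv_sq_le_sub (α := ℝ) hk.ne' hkN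
    have h5 : (0 : ℝ) ≤ ((N : ℝ))⁻¹ := by positivity
    have h6 : (∑ i ∈ Finset.Ioc k N, ((i : ℝ) ^ 2)⁻¹) ≤ ((k : ℝ))⁻¹ := by linarith
    rw [div_eq_mul_inv]
    gcongr
  · rw [Finset.Ioc_eq_empty (by omega)]
    simp
    positivity

/-- Markov: few numbers have a large missing part. -/
lemma cnt_E1 {k : ℕ} (hk : 0 < k) {η : ℝ} (hη : 0 < η) (N : ℕ) :
    (cnt {n | 0 < n ∧ η ≤ idx n - idx (Nat.gcd k.factorial n)} N : ℝ) ≤ (N : ℝ) / (k * η) := by
  classical
  have hk' : (0 : ℝ) < k := by exact_mod_cast hk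
  have h1 : (cnt {n | 0 < n ∧ η ≤ idx n - idx (Nat.gcd k.factorial n)} N : ℝ) * η ≤
      (N : ℝ) / k := by
    refine le_trans ?_ (sum_tail_le hk N)
    apply cnt_mul_le_sum
    · intro n hnN hn
      rw [Finset.mem_Ioc]
      exact ⟨⟨hn.1, hnN.le⟩, hn.2⟩
    · intro n hn
      rw [Finset.mem_Ioc] at hn
      rw [sub_nonneg]
      exact idx_mono (Nat.gcd_dvd_right _ _) hn.1.ne'
  rw [le_div_iff₀ (by positivity)]
  rw [le_div_iff₀ hk'] at h1
  nlinarith

/-- Union bound for the multiples of the `s i` with `c i`. -/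
lemma cnt_union_mul {s : ℕ → ℕ} (hs : ∀ i, 0 < s i) (hsum : Summable (fun i => (1 : ℝ) / s i))
    (c : ℕ → Prop) [DecidablePred c] (N : ℕ) :
    (cnt {n | 0 < n ∧ ∃ i, c i ∧ s i ∣ n} N : ℝ) ≤
      N * ∑' i, (if c i then (1 : ℝ) / s i else 0) := by
  classical
  have hfin : {i | s i ≤ N}.Finite := by
    have h1 := hsum.tendsto_cofinite_zero
    have h2 : ∀ᶠ i in cofinite, (1 : ℝ) / s i < 1 / (N + 1) :=
      h1.eventually (gt_mem_nhds (by positivity))
    rw [eventually_cofinite] at h2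
    refine h2.subset ?_
    intro i hi
    simp only [Set.mem_ofPred_eq] at hi ⊢
    push Not
    have h3 : (0 : ℝ) < s i := by exact_mod_cast hs i
    have h4 : (s i : ℝ) ≤ N + 1 := by
      have : s i ≤ N + 1 := by omega
      exact_mod_cast this
    gcongr
  have hsum2 : Summable (fun i => (if c i then (1 : ℝ) / s i else 0)) := by
    refine Summable.of_nonneg_of_le (fun i => ?_) (fun i => ?_) hsum
    · split_ifs <;> positivity
    · split_ifs
      · exact le_rfl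
      · positivity
  have h1 : cnt {n | 0 < n ∧ ∃ i, c i ∧ s i ∣ n} N ≤
      ∑ i ∈ hfin.toFinset.filter c, N / s i := by
    refine (cnt_le_card ((hfin.toFinset.filter c).biUnion
            (fun i => (Finset.Ioc 0 N).filter (fun n => s i ∣ n))) ?_).trans
            (Finset.card_biUnion_le.trans (le_of_eq ?_))
    · intro n hnN hn
      obtain ⟨hn0, i, hci, hdvd⟩ := hn
      rw [Finset.mem_biUnion]
      refine ⟨i, ?_, ?_⟩
      · rw [Finset.mem_filter, Set.Finite.mem_toFinset]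
        exact ⟨(Nat.le_of_dvd hn0 hdvd).trans hnN.le, hci⟩
      · rw [Finset.mem_filter, Finset.mem_Ioc]
        exact ⟨⟨hn0, hnN.le⟩, hdvd⟩
    · refine Finset.sum_congr rfl (fun i _ => ?_)
      rw [Nat.Ioc_filter_dvd_card_eq_div]
  have h2 : (cnt {n | 0 < n ∧ ∃ i, c i ∧ s i ∣ n} N : ℝ) ≤
      ∑ i ∈ hfin.toFinset.filter c, (N : ℝ) * (1 / s i) := by
    calc (cnt {n | 0 < n ∧ ∃ i, c i ∧ s i ∣ n} N : ℝ)
        ≤ ((∑ i ∈ hfin.toFinset.filter c, N / s i : ℕ) : ℝ) := by exact_mod_cast h1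
      _ = ∑ i ∈ hfin.toFinset.filter c, ((N / s i : ℕ) : ℝ) := by push_cast; rfl
      _ ≤ _ := by
          apply Finset.sum_le_sum
          intro i _
          have : ((N / s i : ℕ) : ℝ) ≤ (N : ℝ) / s i := Nat.cast_div_le
          rw [mul_one_div]
          exact this
  refine h2.trans ?_
  rw [← Finset.mul_sum, Finset.sum_filter]
  gcongr
  exact hsum2.sum_le_tsum _ (fun i _ => by split_ifs <;> positivity)

end Pool.Agent.ABD31
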