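import Pool.Agent.ABD31.Thin

set_option autoImplicit false

open Filter Topology Set

namespace Pool.Agent.ABD31

lemma fin_le {s : ℕ → ℕ} (hs : ∀ i, 0 < s i) (hsum : Summable (fun i => (1 : ℝ) / s i)) (N : ℕ) :
    {i | s i ≤ N}.Finite := by
  have h1 := hsum.tendsto_cofinite_zero
  have h2 : ∀ᶠ i in cofinite, (1 : ℝ) / s i < 1 / (N + 1) :=
    h1.eventually (gt_mem_nhds (by positivity))
  rw [eventually_cofinite] at h2
  refine h2.subset ?_
  intro i hi
  simp only [Set.mem_ofPred_eq] at hi ⊢
  push Not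
  have h3 : (0 : ℝ) < s i := by exact_mod_cast hs i
  have h4 : (s i : ℝ) ≤ N + 1 := by
    have : s i ≤ N + 1 := by omega
    exact_mod_cast this
  gcongr

/-- At most `X / s + 1` of the numbers `1 + M m`, `m < X`, are multiples of `s`. -/
lemma card_ap {s M X : ℕ} :
    ((Finset.range X).filter (fun m => s ∣ 1 + M * m)).card ≤ X / s + 1 := by
  classical
  rw [← Finset.card_range (X / s + 1)]
  apply Finset.card_le_card_of_injOn (fun m => m / s)
  · intro m hm
    simp only [Finset.coe_filter, Finset.mem_range, Set.mem_ofPred_eq] at hm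
    simp only [Finset.coe_range, Set.mem_Iio]
    exact Nat.lt_succ_of_le (Nat.div_le_div_right hm.1.le)
  · intro m hm m' hm' hdiv
    simp only [Finset.coe_filter, Finset.mem_range, Set.mem_ofPred_eq] at hm hm'
    simp only at hdiv
    have hcop : Nat.Coprime s M := by
      rw [Nat.coprime_iff_gcd_eq_one, ← Nat.dvd_one]
      have h1 : Nat.gcd s M ∣ 1 + M * m := (Nat.gcd_dvd_left _ _).trans hm.2
      have h2 : Nat.gcd s M ∣ M * m := (Nat.gcd_dvd_right _ _).trans (dvd_mul_right _ _)
      exact (Nat.dvd_add_left h2).mp h1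
    have hmod : M * m ≡ M * m' [MOD s] := by
      have h3 : 1 + M * m ≡ 1 + M * m' [MOD s] :=
        ((Nat.modEq_zero_iff_dvd).mpr hm.2).trans ((Nat.modEq_zero_iff_dvd).mpr hm'.2).symm
      exact Nat.ModEq.add_left_cancel' 1 h3
    have hmod2 : m ≡ m' [MOD s] := Nat.ModEq.cancel_left_of_coprime (by
      rw [Nat.coprime_iff_gcd_eq_one] at hcop
      exact hcop) hmod
    have e1 := Nat.div_add_mod m s
    have e2 := Nat.div_add_mod m' s
    unfold Nat.ModEq at hmod2
    rw [← e1, ← e2, hdiv, hmod2]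

lemma cnt_le_cnt_of_inj {S T : Set ℕ} {X N : ℕ} {f : ℕ → ℕ} (hf : Function.Injective f)
    (h : ∀ m < X, m ∈ S → f m < N ∧ f m ∈ T) : cnt S X ≤ cnt T N := by
  classical
  have h1 : cnt S X ≤ (((Finset.range X).filter (fun m => m ∈ S)).image f).card := by
    rw [Finset.card_image_of_injective _ hf]
    apply cnt_le_card
    intro m hm hmS
    rw [Finset.mem_filter, Finset.mem_range]
    exact ⟨hm, hmS⟩
  refine h1.trans (card_le_cnt _ ?_)
  intro n hn
  rw [Finset.mem_image] at hn
  obtain ⟨m, hm, rfl⟩ := hn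
  rw [Finset.mem_filter, Finset.mem_range] at hm
  exact h m hm.1 hm.2

lemma le_cnt_add_compl (S : Set ℕ) (X : ℕ) : X ≤ cnt S X + cnt Sᶜ X := by
  refine le_trans ?_ (cnt_union_le S Sᶜ X)
  calc X = (Finset.range X).card := by simp
    _ ≤ _ := card_le_cnt _ (fun n hn => ⟨Finset.mem_range.mp hn, by simp⟩)

/-- In a suitable class modulo a multiple of `M0`, most numbers are free of all `s i`. -/
lemma rough_class {s : ℕ → ℕ} (hs : ∀ i, 2 ≤ s i) (hsum : Summable (fun i => (1 : ℝ) / s i))
    {M0 : ℕ} (hM0 : 0 < M0) :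
    ∃ M : ℕ, 0 < M ∧ M0 ∣ M ∧ ∀ᶠ X : ℕ in atTop,
      (X : ℝ) / 2 ≤ (cnt {m | ∀ i, ¬ s i ∣ 1 + M * m} X : ℝ) := by
  classical
  have hs0 : ∀ i, 0 < s i := fun i => lt_of_lt_of_le (by norm_num) (hs i)
  obtain ⟨k, hk⟩ : ∃ k : ℕ, ∑' i, (if k < s i then (1 : ℝ) / s i else 0) ≤ 1 / 8 := by
    obtain ⟨k, hk⟩ := ((tail_tendsto hsum).eventually (gt_mem_nhds
      (show (0 : ℝ) < 1 / 8 by norm_num))).exists
    exact ⟨k, hk.le⟩
  set M := M0 * k.factorial with hM
  have hMpos : 0 < M := Nat.mul_pos hM0 (Nat.factorial_pos k)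
  have hMpos' : (0 : ℝ) < M := by exact_mod_cast hMpos
  obtain ⟨k', hk'⟩ : ∃ k' : ℕ, ∑' i, (if k' < s i then (1 : ℝ) / s i else 0) ≤ 1 / (8 * M) := by
    obtain ⟨k', hk'⟩ := ((tail_tendsto hsum).eventually (gt_mem_nhds
      (show (0 : ℝ) < 1 / (8 * M) by positivity))).exists
    exact ⟨k', hk'.le⟩
  have hsumif : ∀ k : ℕ, Summable (fun i => (if k < s i then (1 : ℝ) / s i else 0)) := by
    intro k
    refine Summable.of_nonneg_of_le (fun i => ?_) (fun i => ?_) hsum
    · split_ifs <;> positivity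
    · split_ifs
      · exact le_rfl
      · positivity
  refine ⟨M, hMpos, dvd_mul_right _ _, ?_⟩
  set c := (fin_le hs0 hsum k').toFinset.card with hc
  filter_upwards [eventually_ge_atTop (4 * c + 1)] with X hX
  have hX0 : 0 < X := by omega
  have hX0' : (0 : ℝ) < X := by exact_mod_cast hX0
  set I := (fin_le hs0 hsum (M * X)).toFinset.filter (fun i => k < s i) with hI
  have hbad : cnt {m | ∀ i, ¬ s i ∣ 1 + M * m}ᶜ X ≤
      ∑ i ∈ I, (X / s i + 1) := by
    refine le_trans ?_ (le_trans (Finset.card_biUnion_le (s := I)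
      (t := fun i => (Finset.range X).filter (fun m => s i ∣ 1 + M * m)))
      (Finset.sum_le_sum (fun i _ => card_ap)))
    apply cnt_le_card
    intro m hmX hex
    simp only [Set.mem_compl_iff, Set.mem_ofPred_eq] at hex
    push Not at hex
    obtain ⟨i, hi⟩ := hex
    rw [Finset.mem_biUnion]
    refine ⟨i, ?_, ?_⟩
    · rw [hI, Finset.mem_filter, Set.Finite.mem_toFinset]
      constructor
      · have h1 := Nat.le_of_dvd (by omega) hi
        have h2 : 1 + M * m ≤ M * X := by
          have : M * (m + 1) ≤ M * X := Nat.mul_le_mul_left _ hmX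
          have : M * (m + 1) = M * m + M := by ring
          omega
        exact h1.trans h2
      · by_contra hle
        push Not at hle
        have h3 : s i ∣ M := (Nat.dvd_factorial (hs0 i) hle).trans (dvd_mul_left _ _)
        have h4 : s i ∣ M * m := h3.trans (dvd_mul_right _ _)
        have h5 : s i ∣ 1 := (Nat.dvd_add_left h4).mp hi
        have h6 := Nat.le_of_dvd one_pos h5
        have := hs i
        omega
    · rw [Finset.mem_filter, Finset.mem_range]
      exact ⟨hmX, hi⟩
  have hIcard : (I.card : ℝ) ≤ c + X / 8 := by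
    have h1 : I.card ≤ c + ((fin_le hs0 hsum (M * X)).toFinset.filter (fun i => k' < s i)).card := by
      rw [hc]
      refine le_trans (Finset.card_le_card ?_) (Finset.card_union_le _ _)
      intro i hi
      rw [hI, Finset.mem_filter] at hi
      rw [Finset.mem_union]
      by_cases hik : s i ≤ k'
      · left
        rw [Set.Finite.mem_toFinset]
        exact hik
      · right
        rw [Finset.mem_filter]
        exact ⟨hi.1, by omega⟩
    have h2 : (((fin_le hs0 hsum (M * X)).toFinset.filter (fun i => k' < s i)).card : ℝ) ≤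
        X / 8 := by
      have h3 : (((fin_le hs0 hsum (M * X)).toFinset.filter (fun i => k' < s i)).card : ℝ) *
          (1 / (M * X)) ≤ 1 / (8 * M) := by
        refine le_trans ?_ (le_trans ((hsumif k').sum_le_tsum
          (fin_le hs0 hsum (M * X)).toFinset (fun i _ => by split_ifs <;> positivity)) hk')
        rw [← Finset.sum_filter, ← nsmul_eq_mul, ← Finset.sum_const]
        apply Finset.sum_le_sum
        intro i hi
        rw [Finset.mem_filter, Set.Finite.mem_toFinset] at hi
        have h4 : (s i : ℝ) ≤ M * X := by exact_mod_cast hi.1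
        have h5 : (0 : ℝ) < s i := by exact_mod_cast hs0 i
        gcongr
      rw [mul_one_div, div_le_div_iff₀ (by positivity) (by positivity)] at h3
      have h6 : (((fin_le hs0 hsum (M * X)).toFinset.filter (fun i => k' < s i)).card : ℝ) * 8 ≤
          X := by
        have h7 : (M : ℝ) * ((((fin_le hs0 hsum (M * X)).toFinset.filter
          (fun i => k' < s i)).card : ℝ) * 8) ≤ M * X := by linarith
        exact le_of_mul_le_mul_left h7 hMpos'
      linarith
    have h1' : (I.card : ℝ) ≤ c +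
      (((fin_le hs0 hsum (M * X)).toFinset.filter (fun i => k' < s i)).card : ℝ) := by
      exact_mod_cast h1
    linarith
  have hIsum : ∑ i ∈ I, ((X / s i : ℕ) : ℝ) ≤ X / 8 := by
    calc ∑ i ∈ I, ((X / s i : ℕ) : ℝ) ≤ ∑ i ∈ I, (X : ℝ) * (1 / s i) := by
          apply Finset.sum_le_sum
          intro i _
          rw [mul_one_div]
          exact Nat.cast_div_le
      _ = X * ∑ i ∈ I, (1 : ℝ) / s i := by rw [Finset.mul_sum]
      _ ≤ X * (1 / 8) := by
          gcongr
          refine le_trans ?_ (le_trans ((hsumif k).sum_le_tsum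
            (fin_le hs0 hsum (M * X)).toFinset (fun i _ => by split_ifs <;> positivity)) hk)
          rw [← Finset.sum_filter]
      _ = X / 8 := by ring
  have hbad' : (cnt {m | ∀ i, ¬ s i ∣ 1 + M * m}ᶜ X : ℝ) ≤
      X / 8 + (c + X / 8) := by
    have h1 : (cnt {m | ∀ i, ¬ s i ∣ 1 + M * m}ᶜ X : ℝ) ≤
        ∑ i ∈ I, (((X / s i : ℕ) : ℝ) + 1) := by exact_mod_cast hbad
    rw [Finset.sum_add_distrib, Finset.sum_const, nsmul_eq_mul, mul_one] at h1
    linarith
  have htot' : (X : ℝ) ≤ (cnt {m | ∀ i, ¬ s i ∣ 1 + M * m} X : ℝ) +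
      (cnt {m | ∀ i, ¬ s i ∣ 1 + M * m}ᶜ X : ℝ) := by
    exact_mod_cast le_cnt_add_compl _ X
  have hX4 : (4 : ℝ) * c + 1 ≤ X := by exact_mod_cast hX
  linarith

lemma cnt_disj {S T U : Set ℕ} (h1 : S ⊆ U) (h2 : T ⊆ U) (h3 : Disjoint S T) (N : ℕ) :
    cnt S N + cnt T N ≤ cnt U N := by
  classical
  have e : cnt S N + cnt T N =
      (((Finset.range N).filter (fun n => n ∈ S)) ∪ ((Finset.range N).filter (fun n => n ∈ T))).card
        := by
    rw [Finset.card_union_of_disjoint]
    · unfold cnt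
      congr 1
    · rw [Finset.disjoint_left]
      intro n hn hn'
      rw [Finset.mem_filter] at hn hn'
      exact Set.disjoint_left.mp h3 hn.2 hn'.2
  rw [e]
  apply card_le_cnt
  intro n hn
  rw [Finset.mem_union, Finset.mem_filter, Finset.mem_filter, Finset.mem_range] at hn
  rcases hn with h | h
  · exact ⟨h.1, h1 h.2⟩
  · exact ⟨h.1, h2 h.2⟩

lemma pow_not_dvd_prod {T : Finset ℕ} (hT : ∀ t ∈ T, t.Prime) {p a : ℕ} (hp : p.Prime)
    (ha : 0 < a) (h : p ∉ T ∨ 2 ≤ a) : ¬ p ^ a ∣ ∏ t ∈ T, t := by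
  intro hdvd
  have hp1 : p ∣ ∏ t ∈ T, t := (dvd_pow_self p ha.ne').trans hdvd
  have hmem : p ∈ T := by
    obtain ⟨t, ht, hpt⟩ := (Prime.dvd_finsetProd_iff hp.prime _).mp hp1
    rwa [(Nat.prime_dvd_prime_iff_eq hp (hT t ht)).mp hpt]
  rcases h with h | h
  · exact h hmem
  · rw [← Finset.mul_prod_erase T _ hmem] at hdvd
    have h2 : p * p ∣ p * ∏ t ∈ T.erase p, t := by
      refine dvd_trans ?_ hdvd
      rw [← pow_two]
      exact pow_dvd_pow p h
    have h3 : p ∣ ∏ t ∈ T.erase p, t := (Nat.mul_dvd_mul_iff_left hp.pos).mp h2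
    obtain ⟨t, ht, hpt⟩ := (Prime.dvd_finsetProd_iff hp.prime _).mp h3
    rw [Finset.mem_erase] at ht
    exact ht.1 ((Nat.prime_dvd_prime_iff_eq hp (hT t ht.2)).mp hpt).symm

lemma thin_strict {p a : ℕ → ℕ} (hp : ∀ i, (p i).Prime) (ha : ∀ i, 0 < a i)
    (hinj : Function.Injective p) (hsum : Summable (fun i => (1 : ℝ) / ((p i ^ a i : ℕ) : ℝ)))
    (u : ℝ) {x y : ℕ → Bool} (hxy : x < y) {d e : ℝ}
    (hd : HasDensity (thin u (fun i => p i ^ a i) x) d)
    (he : HasDensity (thin u (fun i => p i ^ a i) y) e) : e < d := by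
  classical
  obtain ⟨hle, j, hj⟩ := Pi.lt_def.mp hxy
  obtain ⟨hxj, hyj⟩ := Bool.lt_iff.mp hj
  have hs : ∀ i, 2 ≤ p i ^ a i := fun i =>
    (hp i).two_le.trans (Nat.le_self_pow (ha i).ne' _)
  -- the excluded primes
  set E : Set ℕ := {n | ∃ i, a i = 1 ∧ p i = n} ∪ {p j} with hE
  have hEsum : Summable (E.indicator (fun n : ℕ => (1 : ℝ) / n)) := by
    have h1 : Summable (Set.indicator {n | ∃ i, a i = 1 ∧ p i = n} (fun n : ℕ => (1 : ℝ) / n)) := by
      rw [← hinj.summable_iff]
      · refine Summable.of_nonneg_of_le (fun i => ?_) (fun i => ?_) hsum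
        · apply Set.indicator_nonneg
          intro i _
          positivity
        · simp only [Function.comp]
          by_cases hmem : p i ∈ {n | ∃ i, a i = 1 ∧ p i = n}
          · rw [Set.indicator_of_mem hmem]
            obtain ⟨i', hi', hii⟩ := hmem
            have : i' = i := hinj hii
            subst this
            rw [hi', pow_one]
          · rw [Set.indicator_of_notMem hmem]
            positivity
      · intro n hn
        rw [Set.indicator_of_notMem]
        rintro ⟨i, _, hi⟩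
        exact hn ⟨i, hi⟩
    have h2 : Summable (Set.indicator ({p j} : Set ℕ) (fun n : ℕ => (1 : ℝ) / n)) := by
      apply summable_of_hasFiniteSupport
      refine (Set.finite_singleton (p j)).subset ?_
      intro n hn
      by_contra hne
      exact hn (Set.indicator_of_notMem hne _)
    refine Summable.of_nonneg_of_le (fun n => ?_) (fun n => ?_) (h1.add h2)
    · apply Set.indicator_nonneg
      intro i _
      positivity
    · have a1 : 0 ≤ Set.indicator {n | ∃ i, a i = 1 ∧ p i = n} (fun n : ℕ => (1 : ℝ) / n) n := by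
        apply Set.indicator_nonneg
        intro i _
        positivity
      have a2 : 0 ≤ Set.indicator ({p j} : Set ℕ) (fun n : ℕ => (1 : ℝ) / n) n := by
        apply Set.indicator_nonneg
        intro i _
        positivity
      by_cases hn1 : n ∈ {n | ∃ i, a i = 1 ∧ p i = n}
      · rw [Set.indicator_of_mem (show n ∈ E from Or.inl hn1)]
        rw [Set.indicator_of_mem hn1] at a1 ⊢
        linarith
      · by_cases hn2 : n ∈ ({p j} : Set ℕ)
        · rw [Set.indicator_of_mem (show n ∈ E from Or.inr hn2)]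
          rw [Set.indicator_of_mem hn2] at a2 ⊢
          linarith
        · rw [Set.indicator_of_notMem (show n ∉ E from fun h => h.elim hn1 hn2)]
          linarith
  obtain ⟨T, hT, hTsum⟩ := exists_primes hEsum u
  have hTp : ∀ t ∈ T, t.Prime := fun t ht => (hT t ht).1
  set W := ∏ t ∈ T, t with hW
  have hW0 : 0 < W := Finset.prod_pos (fun t ht => (hTp t ht).pos)
  set D := p j ^ a j * W with hD
  have hD0 : 0 < D := Nat.mul_pos (pow_pos (hp j).pos _) hW0
  obtain ⟨M, hM0, hDM, hgood⟩ := rough_class hs hsum hD0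
  have hDM0 : 0 < D * M := Nat.mul_pos hD0 hM0
  -- members
  have hmem : ∀ m : ℕ, (∀ i, ¬ p i ^ a i ∣ 1 + M * m) →
      D * (1 + M * m) ∈ thin u (fun i => p i ^ a i) x \ thin u (fun i => p i ^ a i) y := by
    intro m hm
    have hn0 : 0 < D * (1 + M * m) := Nat.mul_pos hD0 (by omega)
    refine ⟨⟨hn0, ?_, ?_⟩, ?_⟩
    · refine lt_of_lt_of_le hTsum ?_
      unfold idx
      apply Finset.sum_le_sum_of_subset_of_nonneg
      · intro t ht
        rw [Nat.mem_divisors]
        refine ⟨?_, hn0.ne'⟩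
        have h1 : t ∣ W := Finset.dvd_prod_of_mem _ ht
        exact (h1.trans (dvd_mul_left _ _)).trans (dvd_mul_right _ _)
      · intro i _ _
        positivity
    · intro i hi hdvd
      have hij : i ≠ j := by
        rintro rfl
        rw [hxj] at hi
        exact absurd hi (by decide)
      have hpij : p i ≠ p j := fun h => hij (hinj h)
      simp only at hdvd
      by_cases hpD : p i ∣ D
      · have hpM : p i ∣ M := hpD.trans hDM
        have hpl : ¬ p i ∣ 1 + M * m := by
          intro h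
          have h1 : p i ∣ 1 := (Nat.dvd_add_left (hpM.trans (dvd_mul_right _ _))).mp h
          exact (hp i).one_lt.ne' (Nat.dvd_one.mp h1)
        have hcop : Nat.Coprime (p i ^ a i) (1 + M * m) :=
          Nat.Coprime.pow_left _ ((Nat.Prime.coprime_iff_not_dvd (hp i)).mpr hpl)
        have h2 : p i ^ a i ∣ D := hcop.dvd_of_dvd_mul_right hdvd
        have hcop2 : Nat.Coprime (p i ^ a i) (p j ^ a j) :=
          Nat.Coprime.pow _ _ ((Nat.coprime_primes (hp i) (hp j)).mpr hpij)
        have h3 : p i ^ a i ∣ W := hcop2.dvd_of_dvd_mul_left h2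
        refine pow_not_dvd_prod hTp (hp i) (ha i) ?_ h3
        by_cases hai : a i = 1
        · left
          intro hiT
          exact (hT _ hiT).2 (Or.inl ⟨i, hai, rfl⟩)
        · right
          have := ha i
          omega
      · have hcop : Nat.Coprime (p i ^ a i) D :=
          Nat.Coprime.pow_left _ ((Nat.Prime.coprime_iff_not_dvd (hp i)).mpr hpD)
        exact hm i (hcop.dvd_of_dvd_mul_left hdvd)
    · rintro ⟨_, _, hy⟩
      refine hy j hyj ?_
      exact (dvd_mul_right _ _).trans (dvd_mul_right _ _)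
  have hsub : thin u (fun i => p i ^ a i) y ⊆ thin u (fun i => p i ^ a i) x := by
    rintro n ⟨hn0, hu, hy⟩
    exact ⟨hn0, hu, fun i hi => hy i (Bool.le_iff_imp.mp (hle i) hi)⟩
  have hcnt : ∀ N : ℕ, (cnt (thin u (fun i => p i ^ a i) y) N : ℝ) +
      cnt (thin u (fun i => p i ^ a i) x \ thin u (fun i => p i ^ a i) y) N ≤
      cnt (thin u (fun i => p i ^ a i) x) N := by
    intro N
    exact_mod_cast cnt_disj hsub Set.sdiff_subset Set.disjoint_sdiff_right N
  have hcard : ∀ N : ℕ, 0 < N →
      cnt {m | ∀ i, ¬ p i ^ a i ∣ 1 + M * m} (N / (2 * (D * M))) ≤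
      cnt (thin u (fun i => p i ^ a i) x \ thin u (fun i => p i ^ a i) y) N := by
    intro N hN
    have hinjm : Function.Injective (fun m : ℕ => D * (1 + M * m)) := by
      intro m m' h
      simp only at h
      have h1 := Nat.eq_of_mul_eq_mul_left hD0 h
      have h2 : M * m = M * m' := by omega
      exact Nat.eq_of_mul_eq_mul_left hM0 h2
    refine cnt_le_cnt_of_inj hinjm ?_
    intro m hmX hmg
    refine ⟨?_, hmem m hmg⟩
    have h1 : m + 1 ≤ N / (2 * (D * M)) := hmX
    have h2 : (m + 1) * (2 * (D * M)) ≤ N :=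
      (Nat.mul_le_mul_right _ h1).trans (Nat.div_mul_le_self _ _)
    have h3 : D * (1 + M * m) ≤ (m + 1) * (D * M) := by
      calc D * (1 + M * m) ≤ D * (M + M * m) := by gcongr; omega
        _ = (m + 1) * (D * M) := by ring
    have h4 : 0 < (m + 1) * (D * M) := Nat.mul_pos (Nat.succ_pos _) hDM0
    have h5 : (m + 1) * (2 * (D * M)) = 2 * ((m + 1) * (D * M)) := by ring
    omega
  have hDMr : (0 : ℝ) < (D * M : ℕ) := by exact_mod_cast hDM0
  set c : ℝ := 1 / (8 * (D * M : ℕ)) with hcdef
  have hc0 : 0 < c := by positivity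
  have hlow : ∀ᶠ N : ℕ in atTop, c ≤ (cnt (thin u (fun i => p i ^ a i) x) N : ℝ) / N -
      (cnt (thin u (fun i => p i ^ a i) y) N : ℝ) / N := by
    have hX : Tendsto (fun N : ℕ => N / (2 * (D * M))) atTop atTop :=
      Nat.tendsto_div_const_atTop (by omega)
    have hg2 := hX.eventually hgood
    filter_upwards [hg2, eventually_ge_atTop (4 * (D * M)), eventually_gt_atTop 0]
      with N h1 h2 h3
    have hN' : (0 : ℝ) < N := by exact_mod_cast h3
    have h4 : ((N / (2 * (D * M)) : ℕ) : ℝ) / 2 ≤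
        (cnt (thin u (fun i => p i ^ a i) x \ thin u (fun i => p i ^ a i) y) N : ℝ) := by
      refine h1.trans ?_
      exact_mod_cast hcard N h3
    have h5 : (N : ℝ) / (4 * (D * M : ℕ)) ≤ ((N / (2 * (D * M)) : ℕ) : ℝ) := by
      rw [div_le_iff₀ (by positivity)]
      have h6 : N ≤ N / (2 * (D * M)) * (2 * (D * M)) + 2 * (D * M) := by
        have := Nat.mod_lt N (show 0 < 2 * (D * M) by omega)
        have := Nat.div_add_mod' N (2 * (D * M))
        omega
      have h7 : 2 * (2 * (D * M)) ≤ N := by omega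
      have h8 : N ≤ N / (2 * (D * M)) * (4 * (D * M)) := by
        have : N / (2 * (D * M)) * (4 * (D * M)) = 2 * (N / (2 * (D * M)) * (2 * (D * M))) := by
          ring
        omega
      exact_mod_cast h8
    have h9 := hcnt N
    rw [← sub_div, le_div_iff₀ hN']
    have h10 : c * N = (N : ℝ) / (4 * (D * M : ℕ)) / 2 := by
      rw [hcdef]
      field_simp
      ring
    rw [h10]
    linarith
  have hlim : Tendsto (fun N : ℕ => (cnt (thin u (fun i => p i ^ a i) x) N : ℝ) / N -
      (cnt (thin u (fun i => p i ^ a i) y) N : ℝ) / N) atTop (𝓝 (d - e)) := hd.sub he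
  have := ge_of_tendsto hlim hlow
  linarith

end Pool.Agent.ABD31
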