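import Pool.Agent.ABD31.Win

set_option autoImplicit false

open Filter Topology Set

namespace Pool.Agent.ABD31

/-- The positive `n` with index above `u` that no `s i` with `x i = true` divides. -/
def thin (u : ℝ) (s : ℕ → ℕ) (x : ℕ → Bool) : Set ℕ :=
  {n | 0 < n ∧ u < idx n ∧ ∀ i, x i = true → ¬ s i ∣ n}

/-- Its approximation of level `k`, periodic modulo `k!`. -/
def thinK (k : ℕ) (u : ℝ) (s : ℕ → ℕ) (x : ℕ → Bool) : Set ℕ :=
  {n | u < idx (Nat.gcd k.factorial n) ∧ ∀ i, x i = true → s i ≤ k → ¬ s i ∣ n}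

lemma thinK_per {s : ℕ → ℕ} (hs : ∀ i, 0 < s i) (k : ℕ) (u : ℝ) (x : ℕ → Bool) (n : ℕ) :
    k.factorial + n ∈ thinK k u s x ↔ n ∈ thinK k u s x := by
  unfold thinK
  simp only [Set.mem_ofPred_eq]
  rw [Nat.add_comm, Nat.gcd_add_self_right]
  refine and_congr_right (fun _ => forall_congr' (fun i => imp_congr_right (fun _ =>
    imp_congr_right (fun h => not_congr ?_))))
  exact (Nat.dvd_add_left (Nat.dvd_factorial (hs i) h))

lemma abs_cnt_sub_le {S T D : Set ℕ} (h1 : S ⊆ T ∪ D) (h2 : T ⊆ S ∪ D) (N : ℕ) :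
    |(cnt S N : ℝ) - cnt T N| ≤ cnt D N := by
  have a1 : cnt S N ≤ cnt T N + cnt D N := (cnt_mono h1 N).trans (cnt_union_le _ _ _)
  have a2 : cnt T N ≤ cnt S N + cnt D N := (cnt_mono h2 N).trans (cnt_union_le _ _ _)
  have b1 : (cnt S N : ℝ) ≤ cnt T N + cnt D N := by exact_mod_cast a1
  have b2 : (cnt T N : ℝ) ≤ cnt S N + cnt D N := by exact_mod_cast a2
  rw [abs_le]
  constructor <;> linarith

lemma thin_approx {s : ℕ → ℕ} (k : ℕ) (u η : ℝ) (x : ℕ → Bool) (N : ℕ) :
    |(cnt (thin u s x) N : ℝ) - cnt (thinK k u s x) N| ≤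
      1 + cnt {n | 0 < n ∧ η ≤ idx n - idx (Nat.gcd k.factorial n)} N + cnt (win k u η) N +
      cnt {n | 0 < n ∧ ∃ i, k < s i ∧ s i ∣ n} N := by
  have h := abs_cnt_sub_le (S := thin u s x) (T := thinK k u s x)
    (D := (({0} : Set ℕ) ∪ {n | 0 < n ∧ η ≤ idx n - idx (Nat.gcd k.factorial n)} ∪ win k u η) ∪
      {n | 0 < n ∧ ∃ i, k < s i ∧ s i ∣ n}) ?_ ?_ N
  · refine h.trans ?_
    have c1 := cnt_union_le (({0} : Set ℕ) ∪ {n | 0 < n ∧ η ≤ idx n -
      idx (Nat.gcd k.factorial n)} ∪ win k u η) {n | 0 < n ∧ ∃ i, k < s i ∧ s i ∣ n} N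
    have c2 := cnt_union_le (({0} : Set ℕ) ∪ {n | 0 < n ∧ η ≤ idx n -
      idx (Nat.gcd k.factorial n)}) (win k u η) N
    have c3 := cnt_union_le ({0} : Set ℕ) {n | 0 < n ∧ η ≤ idx n -
      idx (Nat.gcd k.factorial n)} N
    have c4 : cnt ({0} : Set ℕ) N ≤ 1 := by
      refine (cnt_le_card {0} ?_).trans (by simp)
      intro n _ hn
      simpa using hn
    have c5 : cnt (({0} : Set ℕ) ∪ {n | 0 < n ∧ η ≤ idx n -
      idx (Nat.gcd k.factorial n)} ∪ win k u η ∪ {n | 0 < n ∧ ∃ i, k < s i ∧ s i ∣ n}) N ≤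
      1 + cnt {n | 0 < n ∧ η ≤ idx n - idx (Nat.gcd k.factorial n)} N + cnt (win k u η) N +
      cnt {n | 0 < n ∧ ∃ i, k < s i ∧ s i ∣ n} N := by omega
    exact_mod_cast c5
  · rintro n ⟨hn0, hu, hx⟩
    by_cases hg : u < idx (Nat.gcd k.factorial n)
    · left
      exact ⟨hg, fun i hi _ => hx i hi⟩
    · right; left
      push Not at hg
      by_cases hη : η ≤ idx n - idx (Nat.gcd k.factorial n)
      · left; right
        exact ⟨hn0, hη⟩
      · right
        push Not at hη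
        exact ⟨by linarith, hg⟩
  · rintro n ⟨hu, hx⟩
    by_cases hn0 : n = 0
    · right; left; left; left
      exact hn0
    · have hn0' : 0 < n := Nat.pos_of_ne_zero hn0
      by_cases hall : ∀ i, x i = true → ¬ s i ∣ n
      · left
        exact ⟨hn0', lt_of_lt_of_le hu (idx_mono (Nat.gcd_dvd_right _ _) hn0), hall⟩
      · right; right
        push Not at hall
        obtain ⟨i, hi, hdvd⟩ := hall
        refine ⟨hn0', i, ?_, hdvd⟩
        by_contra hle
        push Not at hle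
        exact hx i hi hle hdvd

lemma tail_tendsto {s : ℕ → ℕ} (hsum : Summable (fun i => (1 : ℝ) / s i)) :
    Tendsto (fun k : ℕ => ∑' i, (if k < s i then (1 : ℝ) / s i else 0)) atTop (𝓝 0) := by
  have h := tendsto_tsum_of_dominated_convergence (𝓕 := (atTop : Filter ℕ))
    (f := fun (k : ℕ) (i : ℕ) => (if k < s i then (1 : ℝ) / s i else 0)) (g := fun _ => (0 : ℝ))
    (bound := fun i => (1 : ℝ) / s i) hsum ?_ ?_
  · simpa using h
  · intro i
    apply tendsto_const_nhds.congr'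
    filter_upwards [eventually_ge_atTop (s i)] with k hk
    rw [if_neg (by omega)]
  · refine Eventually.of_forall (fun k i => ?_)
    rw [Real.norm_eq_abs]
    split_ifs
    · rw [abs_of_nonneg (by positivity)]
    · rw [abs_zero]
      positivity

/-- Existence of the densities. -/
lemma thin_density {s : ℕ → ℕ} (hs : ∀ i, 0 < s i) (hsum : Summable (fun i => (1 : ℝ) / s i))
    (u : ℝ) (x : ℕ → Bool) : ∃ d : ℝ, HasDensity (thin u s x) d := by
  apply density_of_approx
  intro ε hε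
  obtain ⟨T, hT, hTsum⟩ := exists_primes (E := ∅) (by simp) (16 / ε)
  set K := T.sup id + 1 with hKdef
  have hK : ∀ t ∈ T, t ≤ K := fun t ht =>
    (Finset.le_sup (f := id) ht).trans (Nat.le_succ _)
  have hK0 : 0 < K := Nat.succ_pos _
  have hK0' : (0 : ℝ) < K := by exact_mod_cast hK0
  set η : ℝ := 1 / (K : ℝ) ^ 2 with hη
  have hη0 : 0 < η := by positivity
  have hk1 : ∀ᶠ k : ℕ in atTop, 1 / ((k : ℝ) * η) ≤ ε / 8 := by
    have : Tendsto (fun k : ℕ => (1 / η) / (k : ℝ)) atTop (𝓝 0) :=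
      tendsto_const_div_atTop_nhds_zero_nat _
    filter_upwards [this.eventually (gt_mem_nhds (show (0 : ℝ) < ε / 8 by positivity)),
      eventually_gt_atTop 0] with k hk hk0
    have hk0' : (0 : ℝ) < k := by exact_mod_cast hk0
    have e : 1 / ((k : ℝ) * η) = (1 / η) / (k : ℝ) := by field_simp
    rw [e]
    exact hk.le
  have hk2 : ∀ᶠ k : ℕ in atTop, ∑' i, (if k < s i then (1 : ℝ) / s i else 0) ≤ ε / 8 := by
    filter_upwards [(tail_tendsto hsum).eventually (gt_mem_nhds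
      (show (0 : ℝ) < ε / 8 by positivity))] with k hk
    exact hk.le
  obtain ⟨k, hk1, hk2, hk3⟩ := (hk1.and (hk2.and (eventually_ge_atTop K))).exists
  have hk0 : 0 < k := lt_of_lt_of_le hK0 hk3
  refine ⟨thinK k u s x, _, density_per (Nat.factorial_pos k) (thinK_per hs k u x), ?_⟩
  have hM0' : (0 : ℝ) < k.factorial := by exact_mod_cast Nat.factorial_pos k
  have hb : (cnt (win k u η) k.factorial : ℝ) / k.factorial ≤ ε / 8 := by
    have hw := win_bound (T := T) (fun t ht => (hT t ht).1) hK hk3 hK0 u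
    rw [div_le_iff₀ hM0']
    have hc0 : (0 : ℝ) ≤ cnt (win k u η) k.factorial := by positivity
    have h16 : (cnt (win k u η) k.factorial : ℝ) * (16 / ε) ≤ 2 * k.factorial := by
      refine le_trans ?_ hw
      gcongr
    have e : (cnt (win k u η) k.factorial : ℝ) =
        (cnt (win k u η) k.factorial : ℝ) * (16 / ε) * (ε / 16) := by field_simp
    rw [e]
    calc (cnt (win k u η) k.factorial : ℝ) * (16 / ε) * (ε / 16) ≤
        (2 * k.factorial) * (ε / 16) := by gcongr
      _ = ε / 8 * k.factorial := by ring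
  have hNbig : ∀ᶠ N : ℕ in atTop, (1 : ℝ) + k.factorial ≤ ε / 8 * N := by
    have : Tendsto (fun N : ℕ => ε / 8 * (N : ℝ)) atTop atTop :=
      tendsto_natCast_atTop_atTop.const_mul_atTop (by positivity)
    exact this.eventually (eventually_ge_atTop _)
  filter_upwards [hNbig] with N hN
  refine (thin_approx k u η x N).trans ?_
  have b1 := cnt_E1 hk0 hη0 N
  have b2 := cnt_per_le (Nat.factorial_pos k) (win_per k u η) N
  have b3 := cnt_union_mul hs hsum (fun i => k < s i) N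
  have hN0 : (0 : ℝ) ≤ N := by positivity
  have b1' : (N : ℝ) / (k * η) ≤ ε / 8 * N := by
    calc (N : ℝ) / (k * η) = N * (1 / ((k : ℝ) * η)) := by ring
      _ ≤ N * (ε / 8) := by gcongr
      _ = _ := by ring
  have b2' : (cnt (win k u η) k.factorial : ℝ) / k.factorial * N ≤ ε / 8 * N := by gcongr
  have b3' : (N : ℝ) * ∑' i, (if k < s i then (1 : ℝ) / s i else 0) ≤ ε / 8 * N := by
    calc (N : ℝ) * ∑' i, (if k < s i then (1 : ℝ) / s i else 0) ≤ N * (ε / 8) := by gcongr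
      _ = _ := by ring
  have hεN : 0 ≤ ε * N := by positivity
  linarith

/-- The Lipschitz bound. -/
lemma thin_lip {s : ℕ → ℕ} (hs : ∀ i, 0 < s i) (hsum : Summable (fun i => (1 : ℝ) / s i))
    (u : ℝ) (x y : ℕ → Bool) {d e : ℝ} (hd : HasDensity (thin u s x) d)
    (he : HasDensity (thin u s y) e) :
    |d - e| ≤ ∑' i, (if x i ≠ y i then (1 : ℝ) / s i else 0) := by
  have h1 : Tendsto (fun N : ℕ => |(cnt (thin u s x) N : ℝ) / N - (cnt (thin u s y) N : ℝ) / N|)
      atTop (𝓝 |d - e|) := (hd.sub he).abs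
  refine le_of_tendsto h1 ?_
  filter_upwards [eventually_gt_atTop 0] with N hN
  have hN' : (0 : ℝ) < N := by exact_mod_cast hN
  rw [← sub_div, abs_div, abs_of_pos hN', div_le_iff₀ hN']
  have h2 := abs_cnt_sub_le (S := thin u s x) (T := thin u s y)
    (D := {n | 0 < n ∧ ∃ i, x i ≠ y i ∧ s i ∣ n}) ?_ ?_ N
  · refine h2.trans ((cnt_union_mul hs hsum (fun i => x i ≠ y i) N).trans (le_of_eq ?_))
    ring
  · rintro n ⟨hn0, hu, hx⟩
    by_cases hall : ∀ i, y i = true → ¬ s i ∣ n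
    · left; exact ⟨hn0, hu, hall⟩
    · right
      push Not at hall
      obtain ⟨i, hi, hdvd⟩ := hall
      refine ⟨hn0, i, ?_, hdvd⟩
      intro hxy
      rw [hi] at hxy
      exact hx i hxy hdvd
  · rintro n ⟨hn0, hu, hx⟩
    by_cases hall : ∀ i, x i = true → ¬ s i ∣ n
    · left; exact ⟨hn0, hu, hall⟩
    · right
      push Not at hall
      obtain ⟨i, hi, hdvd⟩ := hall
      refine ⟨hn0, i, ?_, hdvd⟩
      intro hxy
      rw [hi] at hxy
      exact hx i hxy.symm hdvd

lemma lip_tendsto {s : ℕ → ℕ} (hsum : Summable (fun i => (1 : ℝ) / s i)) (x : ℕ → Bool) :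
    Tendsto (fun y : ℕ → Bool => ∑' i, (if y i ≠ x i then (1 : ℝ) / s i else 0)) (𝓝 x)
      (𝓝 0) := by
  have h := tendsto_tsum_of_dominated_convergence (𝓕 := 𝓝 x)
    (f := fun (y : ℕ → Bool) (i : ℕ) => (if y i ≠ x i then (1 : ℝ) / s i else 0))
    (g := fun _ => (0 : ℝ)) (bound := fun i => (1 : ℝ) / s i) hsum ?_ ?_
  · simpa using h
  · intro i
    apply tendsto_const_nhds.congr'
    have h2 : ∀ᶠ y : ℕ → Bool in 𝓝 x, y i = x i := by
      have h3 : Tendsto (fun y : ℕ → Bool => y i) (𝓝 x) (𝓝 (x i)) :=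
        (continuous_apply i).tendsto x
      have h4 : ∀ᶠ b : Bool in 𝓝 (x i), b = x i := by
        rw [nhds_discrete Bool]
        simp
      exact h3.eventually h4
    filter_upwards [h2] with y hy
    rw [if_neg (by simp [hy])]
  · refine Eventually.of_forall (fun k i => ?_)
    rw [Real.norm_eq_abs]
    split_ifs
    · rw [abs_of_nonneg (by positivity)]
    · rw [abs_zero]
      positivity

lemma thin_continuous {s : ℕ → ℕ} (hs : ∀ i, 0 < s i)
    (hsum : Summable (fun i => (1 : ℝ) / s i)) (u : ℝ) {δ : (ℕ → Bool) → ℝ}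
    (hδ : ∀ x, HasDensity (thin u s x) (δ x)) : Continuous δ := by
  rw [continuous_iff_continuousAt]
  intro x
  unfold ContinuousAt
  rw [tendsto_iff_norm_sub_tendsto_zero]
  refine squeeze_zero (fun _ => norm_nonneg _) (fun y => ?_) (lip_tendsto hsum x)
  exact thin_lip hs hsum u y x (hδ y) (hδ x)

end Pool.Agent.ABD31
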