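import Pool.Agent.ABD31.Idx

set_option autoImplicit false

open Filter Topology Set

namespace Pool.Agent.ABD31

/-- The numbers whose truncated index lies in the window `(u - η, u]`. -/
def win (k : ℕ) (u η : ℝ) : Set ℕ :=
  {n | u - η < idx (Nat.gcd k.factorial n) ∧ idx (Nat.gcd k.factorial n) ≤ u}

lemma win_per (k : ℕ) (u η : ℝ) (n : ℕ) : k.factorial + n ∈ win k u η ↔ n ∈ win k u η := by
  unfold win
  simp only [Set.mem_ofPred_eq]
  rw [Nat.add_comm, Nat.gcd_add_self_right]

lemma ratio_aux {t t' K : ℕ} (ht : 0 < t) (h : t < t') (ht' : t' ≤ K) {g g' u : ℝ} (hg : 1 ≤ g)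
    (h1 : u - 1 / (K : ℝ) ^ 2 < g) (h2 : g' ≤ u)
    (heq : (1 + 1 / (t : ℝ)) * g = (1 + 1 / (t' : ℝ)) * g') : False := by
  have ht0 : (0 : ℝ) < t := by exact_mod_cast ht
  have ht1 : (t : ℝ) + 1 ≤ t' := by exact_mod_cast h
  have ht2 : (t' : ℝ) ≤ K := by exact_mod_cast ht'
  have ht3 : (0 : ℝ) < t' := by linarith
  have hK : (0 : ℝ) < K := by linarith
  have e1 : (t' : ℝ) * (t + 1) * g = t * (t' + 1) * g' := by
    field_simp at heq
    linarith
  -- g' - g = g (t' - t) / (t (t' + 1))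
  have e2 : (t : ℝ) * (t' + 1) * (g' - g) = (t' - t) * g := by linarith
  have e3 : (t : ℝ) * (t' + 1) * (g' - g) ≥ 1 := by
    rw [e2]
    nlinarith
  have e4 : (t : ℝ) * (t' + 1) ≤ (K : ℝ) ^ 2 := by nlinarith
  have e5 : g' - g < 1 / (K : ℝ) ^ 2 := by linarith
  have e6 : 0 < g' - g := by
    by_contra hneg
    push Not at hneg
    have : (t : ℝ) * (t' + 1) * (g' - g) ≤ 0 := mul_nonpos_of_nonneg_of_nonpos (by positivity) hneg
    linarith
  have e7 : (t : ℝ) * (t' + 1) * (g' - g) < 1 := by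
    calc (t : ℝ) * (t' + 1) * (g' - g) ≤ (K : ℝ) ^ 2 * (g' - g) := by gcongr
      _ < (K : ℝ) ^ 2 * (1 / (K : ℝ) ^ 2) := by gcongr
      _ = 1 := by field_simp
  linarith

lemma idx_gcd_mul {k t n : ℕ} (ht : t.Prime) (htk : t ≤ k) (htn : ¬ t ∣ n) :
    idx (Nat.gcd k.factorial (t * n)) = (1 + 1 / (t : ℝ)) * idx (Nat.gcd k.factorial n) := by
  have hcop : Nat.Coprime t n := (Nat.Prime.coprime_iff_not_dvd ht).mpr htn
  rw [Nat.Coprime.gcd_mul _ hcop, Nat.gcd_eq_right (Nat.dvd_factorial ht.pos htk)]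
  refine idx_mul_prime ht (fun h => htn (h.trans (Nat.gcd_dvd_right _ _))) ?_
  exact (Nat.gcd_pos_of_pos_left _ (Nat.factorial_pos k)).ne'

lemma cnt_dvd_self (t : ℕ) : cnt {n | t ∣ n} t ≤ 1 := by
  refine (cnt_le_card {0} ?_).trans (by simp)
  intro n hn hdvd
  simp only [Set.mem_ofPred_eq] at hdvd
  rw [Finset.mem_singleton]
  exact Nat.eq_zero_of_dvd_of_lt hdvd hn

lemma win_bound {T : Finset ℕ} (hT : ∀ t ∈ T, t.Prime) {K k : ℕ} (hK : ∀ t ∈ T, t ≤ K)
    (hKk : K ≤ k) (hK0 : 0 < K) (u : ℝ) :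
    (cnt (win k u (1 / (K : ℝ) ^ 2)) k.factorial : ℝ) * ∑ t ∈ T, (1 : ℝ) / t ≤
      2 * k.factorial := by
  classical
  set M := k.factorial with hM
  set B := win k u (1 / (K : ℝ) ^ 2) with hB
  have hM0 : 0 < M := Nat.factorial_pos k
  have hM0' : (0 : ℝ) < M := by exact_mod_cast hM0
  let F : ℕ → Finset ℕ := fun t =>
    ((Finset.range (M / t * M)).filter (fun n => n ∈ B ∧ ¬ t ∣ n)).image (fun n => t * n)
  have htM : ∀ t ∈ T, t ∣ M := fun t ht =>
    Nat.dvd_factorial (hT t ht).pos ((hK t ht).trans hKk)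
  have h1 : ∑ t ∈ T, (F t).card ≤ M * M := by
    rw [← Finset.card_biUnion]
    · calc (T.biUnion F).card ≤ (Finset.range (M * M)).card := by
            apply Finset.card_le_card
            intro m hm
            rw [Finset.mem_biUnion] at hm
            obtain ⟨t, ht, hm⟩ := hm
            rw [Finset.mem_image] at hm
            obtain ⟨n, hn, rfl⟩ := hm
            rw [Finset.mem_filter, Finset.mem_range] at hn
            rw [Finset.mem_range]
            calc t * n < t * (M / t * M) := (Nat.mul_lt_mul_left (hT t ht).pos).mpr hn.1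
              _ = t * (M / t) * M := by ring
              _ = M * M := by rw [Nat.mul_div_cancel' (htM t ht)]
        _ = M * M := by simp
    · intro t ht t' ht' hne
      rw [Function.onFun, Finset.disjoint_left]
      intro m hm hm'
      rw [Finset.mem_image] at hm hm'
      obtain ⟨n, hn, hnm⟩ := hm
      obtain ⟨n', hn', hnm'⟩ := hm'
      rw [Finset.mem_filter] at hn hn'
      have e1 := idx_gcd_mul (k := k) (hT t ht) ((hK t ht).trans hKk) hn.2.2
      have e2 := idx_gcd_mul (k := k) (hT t' ht') ((hK t' ht').trans hKk) hn'.2.2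
      rw [hnm] at e1
      rw [hnm', e1] at e2
      have g1 : 1 ≤ idx (Nat.gcd k.factorial n) :=
        one_le_idx (Nat.gcd_pos_of_pos_left _ (Nat.factorial_pos k)).ne'
      have g2 : 1 ≤ idx (Nat.gcd k.factorial n') :=
        one_le_idx (Nat.gcd_pos_of_pos_left _ (Nat.factorial_pos k)).ne'
      rcases lt_or_gt_of_ne hne with hlt | hlt
      · exact ratio_aux (hT t ht).pos hlt (hK t' ht') g1 hn.2.1.1 hn'.2.1.2 e2
      · exact ratio_aux (hT t' ht').pos hlt (hK t ht) g2 hn'.2.1.1 hn.2.1.2 e2.symm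
  have h2 : ∀ t ∈ T, M / t * cnt B M ≤ (F t).card + (M / t) * (M / t) := by
    intro t ht
    have c1 : (F t).card = ((Finset.range (M / t * M)).filter (fun n => n ∈ B ∧ ¬ t ∣ n)).card := by
      apply Finset.card_image_of_injective
      intro a b hab
      exact Nat.eq_of_mul_eq_mul_left (hT t ht).pos hab
    have c2 : cnt {n | t ∣ n} (M / t * M) ≤ (M / t) * (M / t) := by
      have e1 : M / t * M = (M / t * (M / t)) * t := by
        rw [mul_assoc, Nat.div_mul_cancel (htM t ht)]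
      rw [e1, cnt_mul (M := t)]
      · calc M / t * (M / t) * cnt {n | t ∣ n} t ≤ M / t * (M / t) * 1 :=
              Nat.mul_le_mul_left _ (cnt_dvd_self t)
          _ = _ := by ring
      · intro n
        simp only [Set.mem_ofPred_eq]
        exact (Nat.dvd_add_right (dvd_refl t))
    have c3 : cnt B (M / t * M) = M / t * cnt B M := cnt_mul (win_per k u _) _
    rw [← c3, c1]
    refine le_trans ?_ (Nat.add_le_add_left c2 _)
    have c4 : cnt B (M / t * M) ≤ cnt ({n | n ∈ B ∧ ¬ t ∣ n} ∪ {n | t ∣ n}) (M / t * M) := by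
      apply cnt_mono
      intro n hn
      by_cases hd : t ∣ n
      · right; exact hd
      · left; exact ⟨hn, hd⟩
    refine c4.trans ((cnt_union_le _ _ _).trans ?_)
    gcongr
    apply cnt_le_card
    intro n hn hmem
    rw [Finset.mem_filter, Finset.mem_range]
    exact ⟨hn, hmem⟩
  have h3 : (M : ℝ) * ((cnt B M : ℝ) * ∑ t ∈ T, (1 : ℝ) / t) ≤
      (M : ℝ) * M + (M : ℝ) ^ 2 * ∑ t ∈ T, ((t : ℝ) ^ 2)⁻¹ := by
    have h4 : ∀ t ∈ T, (M : ℝ) * (cnt B M : ℝ) * (1 / t) ≤
        ((F t).card : ℝ) + (M : ℝ) ^ 2 * ((t : ℝ) ^ 2)⁻¹ := by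
      intro t ht
      have h5 : ((M / t * cnt B M : ℕ) : ℝ) ≤ (((F t).card + (M / t) * (M / t) : ℕ) : ℝ) := by
        exact_mod_cast h2 t ht
      have ht0 : (t : ℝ) ≠ 0 := by
        have := (hT t ht).pos
        positivity
      push_cast [Nat.cast_div (htM t ht) ht0] at h5
      have e1 : (M : ℝ) * (cnt B M : ℝ) * (1 / t) = (M : ℝ) / t * (cnt B M : ℝ) := by ring
      have e2 : (M : ℝ) ^ 2 * ((t : ℝ) ^ 2)⁻¹ = (M : ℝ) / t * ((M : ℝ) / t) := by
        field_simp
      rw [e1, e2]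
      exact h5
    have h6 := Finset.sum_le_sum h4
    rw [Finset.sum_add_distrib, ← Finset.mul_sum, ← Finset.mul_sum] at h6
    have h7 : ∑ t ∈ T, ((F t).card : ℝ) ≤ (M : ℝ) * M := by exact_mod_cast h1
    linarith
  have h8 : ∑ t ∈ T, ((t : ℝ) ^ 2)⁻¹ ≤ 1 := by
    calc ∑ t ∈ T, ((t : ℝ) ^ 2)⁻¹ ≤ ∑ t ∈ Finset.Ioc 1 K, ((t : ℝ) ^ 2)⁻¹ := by
          apply Finset.sum_le_sum_of_subset_of_nonneg
          · intro t ht
            rw [Finset.mem_Ioc]
            exact ⟨(hT t ht).one_lt, hK t ht⟩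
          · intro i _ _
            positivity
      _ ≤ ((1 : ℕ) : ℝ)⁻¹ - (K : ℝ)⁻¹ := sum_Ioc_inv_sq_le_sub one_ne_zero hK0
      _ ≤ 1 := by
          have : (0 : ℝ) ≤ (K : ℝ)⁻¹ := by positivity
          simp
  have h9 : (M : ℝ) * ((cnt B M : ℝ) * ∑ t ∈ T, (1 : ℝ) / t) ≤ (M : ℝ) * (2 * M) := by
    have : (M : ℝ) ^ 2 * ∑ t ∈ T, ((t : ℝ) ^ 2)⁻¹ ≤ (M : ℝ) ^ 2 * 1 := by gcongr
    nlinarith
  exact le_of_mul_le_mul_left h9 hM0'

/-- There are finite sets of primes with large reciprocal sum, avoiding a summable set. -/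
lemma exists_primes {E : Set ℕ} (hE : Summable (E.indicator (fun n : ℕ => (1 : ℝ) / n)))
    (C : ℝ) : ∃ T : Finset ℕ, (∀ t ∈ T, t.Prime ∧ t ∉ E) ∧ C < ∑ t ∈ T, (1 : ℝ) / t := by
  classical
  have h1 : ¬ Summable (Set.indicator ({p : ℕ | p.Prime} \ E) (fun n : ℕ => (1 : ℝ) / n)) := by
    intro h
    apply not_summable_one_div_on_primes
    refine Summable.of_nonneg_of_le (fun n => ?_) (fun n => ?_) (h.add hE)
    · apply Set.indicator_nonneg
      intro i _
      positivity
    · by_cases hp : n ∈ {p : ℕ | p.Prime}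
      · by_cases he : n ∈ E
        · rw [Set.indicator_of_mem hp, Set.indicator_of_mem he]
          have : 0 ≤ Set.indicator ({p : ℕ | p.Prime} \ E) (fun n : ℕ => (1 : ℝ) / n) n := by
            apply Set.indicator_nonneg
            intro i _
            positivity
          linarith
        · rw [Set.indicator_of_mem hp, Set.indicator_of_mem (show n ∈ {p : ℕ | p.Prime} \ E from
            ⟨hp, he⟩), Set.indicator_of_notMem he]
          linarith
      · rw [Set.indicator_of_notMem hp]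
        have a1 : 0 ≤ Set.indicator ({p : ℕ | p.Prime} \ E) (fun n : ℕ => (1 : ℝ) / n) n := by
          apply Set.indicator_nonneg
          intro i _
          positivity
        have a2 : 0 ≤ Set.indicator E (fun n : ℕ => (1 : ℝ) / n) n := by
          apply Set.indicator_nonneg
          intro i _
          positivity
        linarith
  rw [not_summable_iff_tendsto_nat_atTop_of_nonneg] at h1
  · obtain ⟨n, hn⟩ := (h1.eventually (eventually_gt_atTop C)).exists
    refine ⟨(Finset.range n).filter (fun t => t ∈ {p : ℕ | p.Prime} \ E), ?_, ?_⟩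
    · intro t ht
      rw [Finset.mem_filter] at ht
      exact ⟨ht.2.1, ht.2.2⟩
    · rw [Finset.sum_filter]
      refine lt_of_lt_of_le hn (le_of_eq ?_)
      refine Finset.sum_congr rfl (fun t _ => ?_)
      unfold Set.indicator
      split_ifs <;> rfl
  · intro i
    apply Set.indicator_nonneg
    intro i _
    positivity

end Pool.Agent.ABD31
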